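import Pool.Agent.DK73.Defs

/-!
# Algebra of the counts (proofs)
-/

set_option autoImplicit false

namespace Pool.Agent.DK73.AlgS82

open Pool.Agent.DK73

theorem cnt_eq (l : List Bool) : ∀ a b : ℕ, cnt l a b = al l a * al (l.map (!·)) b := by
  induction l with
  | nil => intro a b; rfl
  | cons c l ih =>
    intro a b
    cases c with
    | true =>
      change ∑ k ∈ Finset.Icc 1 b, cnt l (a + 1) k =
        al l (a + 1) * ∑ k ∈ Finset.Icc 1 b, al (l.map (!·)) k
      rw [Finset.mul_sum]
      exact Finset.sum_congr rfl fun k _ => ih _ _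
    | false =>
      change ∑ k ∈ Finset.Icc 1 a, cnt l k (b + 1) =
        (∑ k ∈ Finset.Icc 1 a, al l k) * al (l.map (!·)) (b + 1)
      rw [Finset.sum_mul]
      exact Finset.sum_congr rfl fun k _ => ih _ _

theorem hockey (g a : ℕ) : ∑ j ∈ Finset.range (a + 1), j.choose g = (a + 1).choose (g + 1) := by
  induction a with
  | zero =>
    rw [Finset.sum_range_one, Nat.choose_succ_succ]
    simp
  | succ a ih =>
    rw [Finset.sum_range_succ, ih, Nat.choose_succ_succ (a + 1) g]
    ring

theorem choose_ext (a : ℕ) (S : ℕ → ℕ) (f : ℕ → ℕ) (hf : f a = 0) :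
    ∑ g ∈ Finset.range (a + 1), f g * S g = ∑ g ∈ Finset.range a, f g * S g := by
  rw [Finset.sum_range_succ, hf, zero_mul, add_zero]

theorem al_eq (l : List Bool) : ∀ a : ℕ,
    al l (a + 1) = ∑ g ∈ Finset.range (a + 1), a.choose g * Sy l g := by
  induction l with
  | nil =>
    intro a
    rw [Finset.sum_range_succ']
    change 1 = ∑ g ∈ Finset.range a, a.choose (g + 1) * Sy [] (g + 1) + a.choose 0 * Sy [] 0
    have h1 : ∑ g ∈ Finset.range a, a.choose (g + 1) * Sy [] (g + 1) = 0 := by
      refine Finset.sum_eq_zero fun g _ => ?_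
      have : Sy [] (g + 1) = 0 := rfl
      rw [this, mul_zero]
    have h2 : Sy [] 0 = 1 := rfl
    rw [h1, h2, Nat.choose_zero_right]
  | cons c l ih =>
    intro a
    cases c with
    | true =>
      change al l (a + 1 + 1) = ∑ g ∈ Finset.range (a + 1), a.choose g * (Sy l g + Sy l (g + 1))
      rw [ih (a + 1)]
      have h1 : ∑ g ∈ Finset.range (a + 1 + 1), (a + 1).choose g * Sy l g =
          ∑ g ∈ Finset.range (a + 1), (a.choose g + a.choose (g + 1)) * Sy l (g + 1) +
            a.choose 0 * Sy l 0 := by
        rw [Finset.sum_range_succ']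
        simp only [Nat.choose_succ_succ, Nat.choose_zero_right]
      have h2 : ∑ g ∈ Finset.range (a + 1 + 1), a.choose g * Sy l g =
          ∑ g ∈ Finset.range (a + 1), a.choose (g + 1) * Sy l (g + 1) + a.choose 0 * Sy l 0 :=
        Finset.sum_range_succ' _ _
      have h3 : ∑ g ∈ Finset.range (a + 1 + 1), a.choose g * Sy l g =
          ∑ g ∈ Finset.range (a + 1), a.choose g * Sy l g :=
        choose_ext (a + 1) (Sy l) (fun g => a.choose g) (Nat.choose_succ_self a)
      rw [h1]
      simp only [add_mul, mul_add, Finset.sum_add_distrib]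
      rw [← h3, h2]
      ring
    | false =>
      change ∑ k ∈ Finset.Icc 1 (a + 1), al l k =
        ∑ g ∈ Finset.range (a + 1), a.choose g * (Sy l g + if g = 0 then 0 else Sy l (g - 1))
      have h1 : ∑ k ∈ Finset.Icc 1 (a + 1), al l k =
          ∑ j ∈ Finset.range (a + 1), al l (j + 1) := by
        rw [Finset.range_eq_Ico, Finset.sum_Ico_add' (fun k => al l k) 0 (a + 1) 1]
        rfl
      have h2 : ∀ j ∈ Finset.range (a + 1), al l (j + 1) =
          ∑ g ∈ Finset.range (a + 1), j.choose g * Sy l g := by
        intro j hj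
        rw [ih j]
        refine Finset.sum_subset ?_ ?_
        · intro x hx
          rw [Finset.mem_range] at hx hj ⊢
          omega
        · intro x _ hx
          rw [Finset.mem_range, not_lt] at hx
          rw [Nat.choose_eq_zero_of_lt (by omega), zero_mul]
      rw [h1, Finset.sum_congr rfl h2, Finset.sum_comm]
      have h3 : ∀ g ∈ Finset.range (a + 1), ∑ j ∈ Finset.range (a + 1), j.choose g * Sy l g =
          (a.choose g + a.choose (g + 1)) * Sy l g := by
        intro g _
        rw [← Finset.sum_mul, hockey, Nat.choose_succ_succ]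
      rw [Finset.sum_congr rfl h3]
      have h4 : ∑ g ∈ Finset.range (a + 1), a.choose (g + 1) * Sy l g =
          ∑ g ∈ Finset.range a, a.choose (g + 1) * Sy l g :=
        choose_ext a (Sy l) (fun g => a.choose (g + 1)) (Nat.choose_succ_self a)
      have h5 : ∑ g ∈ Finset.range (a + 1), a.choose g * (if g = 0 then 0 else Sy l (g - 1)) =
          ∑ g ∈ Finset.range a, a.choose (g + 1) * Sy l g := by
        rw [Finset.sum_range_succ']
        simp
      simp only [add_mul, mul_add, Finset.sum_add_distrib]
      rw [h4, h5]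

end Pool.Agent.DK73.AlgS82
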