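import Pool.Agent.DK73.Defs
import Pool.Agent.DK73.AlgS82

/-!
# Algebra of the counts

`cnt_eq`: induction on `l` (both sums factor; `Finset.mul_sum`, `Finset.sum_mul`).
`al_eq`: induction on `l`. `[]`: only `g = 0`. `true`: `(a+1).choose g = a.choose g + a.choose (g-1)`.
`false`: `∑ k ∈ Icc 1 (a+1), (k-1).choose g = (a+1).choose (g+1) = a.choose (g+1) + a.choose g`
(`Nat.sum_range_choose_...` or induction on `a`). `al_one` is the case `a = 0`.
-/

set_option autoImplicit false

namespace Pool.Agent.DK73

theorem cnt_eq (l : List Bool) (a b : ℕ) : cnt l a b = al l a * al (l.map (!·)) b := by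
  exact AlgS82.cnt_eq l a b

theorem al_eq (l : List Bool) (a : ℕ) :
    al l (a + 1) = ∑ g ∈ Finset.range (a + 1), a.choose g * Sy l g := by
  exact AlgS82.al_eq l a

theorem al_one (l : List Bool) : al l 1 = Sy l 0 := by
  rw [al_eq l 0]
  simp

end Pool.Agent.DK73
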