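import Pool.Agent.DK73.CountG73

/-!
# The number of folded states with given directions

`main_cnt`: as `main_count` of the base file: `SF` splits over the cuts `c ∈ DD n h` (`complete_step`, `ins2_inv`,
`DD_ins2`, `UU_ins2`, `sum_rank`, `cut_unique`) if `δ n` is false; if `δ n` is true pass to the mirror image first
(`SF_mir`, `mir_inv`, `card_DD_mir`, `card_UU_mir`, directions `¬ δ`; `cnt_swap`). For the last half step (`r = 0`, `t = 1`)
compare `SF_half`, whose proof needs `¬ δ (n + 1)`: the set `SF (n + 1) n δ h` only depends on `δ i` for `i ≤ n`, so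
`δ (n + 1)` may be changed.
`card_gen`: `base` and its `DD`, `UU` (`base_inv`, `base_DD`, `base_UU`) if `δ 0`; the mirror image otherwise.
-/

set_option autoImplicit false

namespace Pool.Agent.DK73

open Pool.Agent.Results.MP_15ecc6_co.DoubleCatalan

theorem cnt_swap (l : List Bool) (a b : ℕ) : cnt (l.map (!·)) b a = cnt l a b :=
  CountS73.cnt_swap l a b

theorem wd_neg (δ : ℕ → Prop) (n r : ℕ) : wd (fun i => ¬ δ i) n r = (wd δ n r).map (!·) :=
  CountS73.wd_neg δ r n

theorem half_cnt {n : ℕ} {δ : ℕ → Prop} {h : ℕ → ℕ} (hI : Inv n δ h) (d : ¬ δ n) :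
    (SF (n + 1) n δ h).card = (DD n h).card :=
  CountS73.half_cnt hI d

theorem main_cnt (t : ℕ) (ht : t ≤ 1) (r : ℕ) : ∀ (n : ℕ) (δ : ℕ → Prop) (h : ℕ → ℕ),
    Inv n δ h → (∀ k, k < r → (δ (n + 2 * k) ↔ δ (n + 2 * k + 1))) →
    (SF (n + 2 * r + t) n δ h).card = cnt (wd δ n (r + t)) (DD n h).card (UU n h).card :=
  CountS73.main_cnt t ht r

open Classical in
theorem card_gen (n : ℕ) (hn : 1 ≤ n) (δ : ℕ → Prop)
    (hδ : ∀ i, i % 2 = 1 → i + 1 < n → (δ i ↔ δ (i + 1))) :
    Set.ncard {g : ℕ → ℕ | St n δ g} = cnt (decide (δ 0) :: wd δ 1 (n / 2)) 1 1 :=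
  CountS73.card_gen n hn δ hδ

end Pool.Agent.DK73
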