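import Pool.Agent.DK73.CountS73

/-!
# All states
-/

set_option autoImplicit false

namespace Pool.Agent.DK73.CountS73

open Pool.Agent.Results.MP_15ecc6_co.DoubleCatalan Pool.Agent.DK73

theorem card_up (n : ℕ) (hn : 1 ≤ n) (δ : ℕ → Prop) (h0 : δ 0)
    (hδ : ∀ i, i % 2 = 1 → i + 1 < n → (δ i ↔ δ (i + 1))) :
    Set.ncard {g : ℕ → ℕ | St n δ g} = cnt (wd δ 1 (n / 2)) 2 1 := by
  have hset : {g : ℕ → ℕ | St n δ g} = ((SF n 1 δ base : Finset (ℕ → ℕ)) : Set (ℕ → ℕ)) := by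
    ext g
    rw [Finset.mem_coe, mem_SF]
    constructor
    · intro hg
      refine ⟨hg, ?_⟩
      have hg0 := (St.dir hg 0 (by omega)).2 h0
      intro x y hx hy
      have b0 : base 0 = 0 := rfl
      have b1 : base 1 = 1 := rfl
      have hx2 : x = 0 ∨ x = 1 := by omega
      have hy2 : y = 0 ∨ y = 1 := by omega
      have e : 0 + 1 = 1 := rfl
      rw [e] at hg0
      rcases hx2 with rfl | rfl <;> rcases hy2 with rfl | rfl <;> omega
    · exact fun hg => hg.1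
  rw [hset, Set.ncard_coe_finset]
  obtain ⟨t, r, ht, hnr⟩ : ∃ t r, t ≤ 1 ∧ n = 1 + 2 * r + t := by
    refine ⟨(n+1) % 2, (n-1)/2, by omega, by omega⟩
  have hmain := main_cnt t ht r 1 δ base (base_inv h0) (fun k hk => hδ (1 + 2 * k) (by omega) (by omega))
  rw [← hnr, base_DD, base_UU] at hmain
  rw [hmain]
  have e1 : n / 2 = r + t := by omega
  rw [e1]

theorem st_mir (n : ℕ) (δ : ℕ → Prop) :
    Set.ncard {g : ℕ → ℕ | St n δ g} = Set.ncard {g : ℕ → ℕ | St n (fun i => ¬ δ i) g} := by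
  have h1 : ∀ δ : ℕ → Prop, (fun i => ¬ (fun i => ¬ δ i) i) = δ := fun δ => by
    funext i
    exact propext not_not
  apply Set.ncard_congr (fun g _ => mir n g)
  · intro g hg
    exact mir_st hg
  · intro g g' hg hg' h
    rw [← mir_mir (show St n δ g from hg), ← mir_mir (show St n δ g' from hg')]
    exact congrArg (mir n) h
  · intro g hg
    refine ⟨mir n g, ?_, mir_mir (show St n (fun i => ¬ δ i) g from hg)⟩
    have h2 := mir_st (show St n (fun i => ¬ δ i) g from hg)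
    rw [h1] at h2
    exact h2

open Classical in
theorem card_gen (n : ℕ) (hn : 1 ≤ n) (δ : ℕ → Prop)
    (hδ : ∀ i, i % 2 = 1 → i + 1 < n → (δ i ↔ δ (i + 1))) :
    Set.ncard {g : ℕ → ℕ | St n δ g} = cnt (decide (δ 0) :: wd δ 1 (n / 2)) 1 1 := by
  by_cases h0 : δ 0
  · rw [card_up n hn δ h0 hδ, decide_eq_true h0]
    show _ = ∑ k ∈ Finset.Icc 1 1, cnt (wd δ 1 (n / 2)) 2 k
    rw [Finset.Icc_self, Finset.sum_singleton]
  · rw [st_mir, card_up n hn (fun i => ¬ δ i) h0 (fun i h1 h2 => not_congr (hδ i h1 h2)), wd_neg,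
      decide_eq_false h0]
    show _ = ∑ k ∈ Finset.Icc 1 1, cnt (wd δ 1 (n / 2)) k 2
    rw [Finset.Icc_self, Finset.sum_singleton]
    exact cnt_swap (wd δ 1 (n / 2)) 1 2

end Pool.Agent.DK73.CountS73
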