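import Pool.Agent.DK73.Defs

/-!
# The general placement count
-/

set_option autoImplicit false

namespace Pool.Agent.DK73.CountS73

open Pool.Agent.Results.MP_15ecc6_co.DoubleCatalan Pool.Agent.DK73

theorem cnt_swap (l : List Bool) : ∀ a b : ℕ, cnt (l.map (!·)) b a = cnt l a b := by
  induction l with
  | nil => intro a b; rfl
  | cons c l ih =>
    intro a b
    cases c
    · show ∑ k ∈ Finset.Icc 1 a, cnt (l.map (!·)) (b + 1) k = ∑ k ∈ Finset.Icc 1 a, cnt l k (b + 1)
      exact Finset.sum_congr rfl fun k _ => ih k (b + 1)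
    · show ∑ k ∈ Finset.Icc 1 b, cnt (l.map (!·)) k (a + 1) = ∑ k ∈ Finset.Icc 1 b, cnt l (a + 1) k
      exact Finset.sum_congr rfl fun k _ => ih (a + 1) k

theorem wd_neg (δ : ℕ → Prop) (r : ℕ) : ∀ n : ℕ, wd (fun i => ¬ δ i) n r = (wd δ n r).map (!·) := by
  induction r with
  | zero => intro n; rfl
  | succ r ih =>
    intro n
    unfold wd
    rw [ih (n + 2), List.map_cons]
    congr 1
    by_cases h : δ n <;> simp [h]

/-- `St` only depends on the directions below `n` -/
theorem st_congr {n : ℕ} {δ δ' : ℕ → Prop} {g : ℕ → ℕ} (h : ∀ i, i < n → (δ i ↔ δ' i)) (hs : St n δ g) :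
    St n δ' g :=
  ⟨hs.zero, hs.le, hs.inj, hs.nc, fun i hi => (hs.dir i hi).trans (h i hi)⟩

theorem inv_congr {n : ℕ} {δ δ' : ℕ → Prop} {h : ℕ → ℕ} (hh : ∀ i, i ≤ n → (δ i ↔ δ' i))
    (hI : Inv n δ h) : Inv n δ' h := by
  refine ⟨st_congr (fun i hi => hh i hi.le) hI.st, hI.odd, hI.yo, ?_, ?_⟩
  · intro c z ho hc hz hzc
    have := hI.dn c z ho hc hz hzc
    exact ⟨this.1, (hh z hz).1 this.2⟩
  · intro c z ho hc hz hzc
    have := hI.up c z ho hc hz hzc
    exact ⟨this.1, fun h' => this.2 ((hh z hz).2 h')⟩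

theorem half_cnt {n : ℕ} {δ : ℕ → Prop} {h : ℕ → ℕ} (hI : Inv n δ h) (d : ¬ δ n) :
    (SF (n + 1) n δ h).card = (DD n h).card := by
  classical
  -- change the direction at `n + 1`
  have key : ∀ δ' : ℕ → Prop, Inv n δ' h → ¬ δ' n → ¬ δ' (n + 1) →
      (SF (n + 1) n δ' h).card = (DD n h).card := by
    intro δ' hI d1 d2
    have hs := hI.st
    have hn := hs.le n le_rfl
    apply Finset.card_bij
      (fun g hg => Classical.choose (cut_step hI (mem_SF.1 hg).1 (mem_SF.1 hg).2 d1))
    · intro g hg
      have hsp := Classical.choose_spec (cut_step hI (mem_SF.1 hg).1 (mem_SF.1 hg).2 d1)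
      exact (mem_DD hs).2 ⟨hsp.2.1, hsp.1⟩
    · intro g hg g' hg' hgg
      have hsp := Classical.choose_spec (cut_step hI (mem_SF.1 hg).1 (mem_SF.1 hg).2 d1)
      have hsp' := Classical.choose_spec (cut_step hI (mem_SF.1 hg').1 (mem_SF.1 hg').2 d1)
      rw [← hgg] at hsp'
      obtain ⟨_, _, k1⟩ := hsp
      obtain ⟨_, _, k2⟩ := hsp'
      have hk : ∀ x, x ≤ n → (g x < g (n+1) ↔ g' x < g' (n+1)) := fun x hx =>
        (k1 x hx).trans (k2 x hx).symm
      have m1 := (mem_SF.1 hg)
      have m2 := (mem_SF.1 hg')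
      apply m1.1.rigid m2.1
      intro x y hx hy
      have hx3 : x ≤ n ∨ x = n+1 := by omega
      have hy3 : y ≤ n ∨ y = n+1 := by omega
      rcases hx3 with h1 | rfl
      · rcases hy3 with h2 | rfl
        · rw [m1.2 x y h1 h2, m2.2 x y h1 h2]
        · exact (hk x h1).symm
      · rcases hy3 with h2 | rfl
        · have q1 := hk y h2
          have q2 : g y ≠ g (n+1) := fun hq => by
            have := m1.1.inj y (n+1) (by omega) (by omega) hq
            omega
          have q3 : g' y ≠ g' (n+1) := fun hq => by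
            have := m2.1.inj y (n+1) (by omega) (by omega) hq
            omega
          omega
        · omega
    · intro c hc
      have hc' := (mem_DD hs).1 hc
      have hst : St (n+1+1) δ' (ins2 n c h) := ins2_st hI hc'.2 hc'.1 d1 d2
      obtain ⟨g, hg, he⟩ := hst.restrict
      have hgx : ∀ x, x ≤ n → (g x < g (n+1) ↔ h x < c) := by
        intro x hx
        rw [← he x (n+1) (by omega) le_rfl, ins2_one, ins2_old hx]
        split_ifs <;> omega
      have hge : Ext n h g := by
        intro x y hx hy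
        rw [← he x y (by omega) (by omega)]
        exact ins2_lt hx hy
      have hgm : g ∈ SF (n+1) n δ' h := mem_SF.2 ⟨hg, hge⟩
      refine ⟨g, hgm, ?_⟩
      have hsp := Classical.choose_spec (cut_step hI (mem_SF.1 hgm).1 (mem_SF.1 hgm).2 d1)
      apply cut_unique hs (by omega) (by omega)
      intro x hx
      rw [← hgx x hx]
      exact (hsp.2.2 x hx).symm
  have h1 : ∀ i, i ≤ n → (δ i ↔ (δ i ∧ i ≤ n)) := fun i hi => ⟨fun h' => ⟨h', hi⟩, fun h' => h'.1⟩
  have h2 := key (fun i => δ i ∧ i ≤ n) (inv_congr h1 hI) (fun h' => d h'.1)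
    (fun h' => by have := h'.2; omega)
  rw [← h2]
  congr 1
  ext g
  rw [mem_SF, mem_SF]
  constructor
  · rintro ⟨a1, a2⟩
    exact ⟨st_congr (fun i hi => h1 i (by omega)) a1, a2⟩
  · rintro ⟨a1, a2⟩
    exact ⟨st_congr (fun i hi => (h1 i (by omega)).symm) a1, a2⟩

theorem main_cnt (t : ℕ) (ht : t ≤ 1) (r : ℕ) : ∀ (n : ℕ) (δ : ℕ → Prop) (h : ℕ → ℕ),
    Inv n δ h → (∀ k, k < r → (δ (n + 2 * k) ↔ δ (n + 2 * k + 1))) →
    (SF (n + 2 * r + t) n δ h).card = cnt (wd δ n (r + t)) (DD n h).card (UU n h).card := by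
  classical
  induction r with
  | zero =>
    intro n δ h hI _
    have ht2 : t = 0 ∨ t = 1 := by omega
    rcases ht2 with rfl | rfl
    · show (SF n n δ h).card = _
      rw [SF_self hI.st]
      rfl
    · show (SF (n+1) n δ h).card = cnt (decide (δ n) :: []) _ _
      by_cases d : δ n
      · rw [SF_mir (by omega) hI.st, half_cnt (mir_inv hI) (fun h' => h' d), card_DD_mir hI.st,
          decide_eq_true d]
        show _ = ∑ k ∈ Finset.Icc 1 (UU n h).card, 1
        simp
      · rw [half_cnt hI d, decide_eq_false d]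
        show _ = ∑ k ∈ Finset.Icc 1 (DD n h).card, 1
        simp
  | succ r ih =>
    intro n
    have key : ∀ (δ : ℕ → Prop) (h : ℕ → ℕ), Inv n δ h →
        (∀ k, k < r + 1 → (δ (n + 2 * k) ↔ δ (n + 2 * k + 1))) → ¬ δ n →
        (SF (n + 2 * (r + 1) + t) n δ h).card =
          cnt (wd δ n (r + 1 + t)) (DD n h).card (UU n h).card := by
      intro δ h hI hP d1
      have d2 : ¬ δ (n + 1) := fun h' => d1 ((hP 0 (by omega)).2 h')
      have hs := hI.st
      have hset : SF (n + 2 * (r+1) + t) n δ h =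
          (DD n h).biUnion (fun c => SF (n + 2 + 2 * r + t) (n+2) δ (ins2 n c h)) := by
        have eN : n + 2 * (r+1) + t = n + 2 + 2 * r + t := by omega
        rw [eN]
        ext g
        rw [mem_SF, Finset.mem_biUnion]
        constructor
        · rintro ⟨hg, he⟩
          obtain ⟨g1, hg1, he1⟩ := hg.restrict' (m := n+2) (by omega)
          have he2 : Ext n h g1 := by
            intro x y hx hy
            rw [← he1 x y (by omega) (by omega)]
            exact he x y hx hy
          obtain ⟨c, hc, ho, rfl⟩ := complete_step hI hg1 he2 d1 d2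
          exact ⟨c, (mem_DD hs).2 ⟨ho, hc⟩, mem_SF.2 ⟨hg, he1⟩⟩
        · rintro ⟨c, hc, hg⟩
          rw [mem_SF] at hg
          exact ⟨hg.1, Ext.trans (by omega) ins2_ext hg.2⟩
      rw [hset, Finset.card_biUnion]
      · have hterm : ∀ c ∈ DD n h, (SF (n + 2 + 2 * r + t) (n+2) δ (ins2 n c h)).card =
            cnt (wd δ (n + 2) (r + t)) (((DD n h).filter (fun c' => c' ≤ c)).card)
              ((UU n h).card + 1) := by
          intro c hc
          have hc' := (mem_DD hs).1 hc
          have hI2 := ins2_inv hI hc'.2 hc'.1 d1 d2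
          rw [ih (n+2) δ _ hI2 ?_, UU_ins2 hI hc'.2 hc'.1, DD_ins2 hI hc'.2 hc'.1 d1 d2]
          intro k hk
          have := hP (k + 1) (by omega)
          have e : n + 2 * (k + 1) = n + 2 + 2 * k := by omega
          rw [e] at this
          exact this
        rw [Finset.sum_congr rfl hterm,
          sum_rank (fun k => cnt (wd δ (n + 2) (r + t)) k ((UU n h).card + 1)) (DD n h)]
        have e : r + 1 + t = (r + t) + 1 := by omega
        rw [e]
        show _ = cnt (decide (δ n) :: wd δ (n + 2) (r + t)) _ _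
        rw [decide_eq_false d1]
        rfl
      · intro c hc c' hc' hne
        show Disjoint (SF (n + 2 + 2 * r + t) (n+2) δ (ins2 n c h))
          (SF (n + 2 + 2 * r + t) (n+2) δ (ins2 n c' h))
        rw [Finset.disjoint_left]
        intro g hg hg'
        rw [mem_SF] at hg hg'
        have k1 := (mem_DD hs).1 (Finset.mem_coe.1 hc)
        have k2 := (mem_DD hs).1 (Finset.mem_coe.1 hc')
        have hn := hs.le n le_rfl
        apply hne
        apply cut_unique hs (by omega) (by omega)
        intro x hx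
        have a1 := hg.2 x (n+1) (by omega) (by omega)
        have a2 := hg'.2 x (n+1) (by omega) (by omega)
        rw [ins2_one, ins2_old hx] at a1 a2
        split_ifs at a1 a2 <;> omega
    intro δ h hI hP
    by_cases d : δ n
    · rw [SF_mir (by omega) hI.st, key _ _ (mir_inv hI) (fun k hk => not_congr (hP k hk))
        (fun h' => h' d), wd_neg, card_DD_mir hI.st, card_UU_mir hI.st, cnt_swap]
    · exact key δ h hI hP d

end Pool.Agent.DK73.CountS73
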