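import Pool.Agent.MV68.DCBase

/-!
# The class of strings with `s_(2i) ≠ s_(2i+1)`: definitions

`true` = the next pair of segments goes up, `false` = down. `cnt l a b` counts the placements for the word of
directions `l`, starting with `a` gaps below and `b` gaps above. `al` = the factor of the gaps below.
`Sy l g` = number of step sequences of the length of `l` starting `g` units (of size 2) below the path `l`,
staying weakly below it and ending at its end point.
Height functions: `IsPath L f`. `Bel L H`, `Abv L H` = the paths weakly below, above `H` with the same end point.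
-/

set_option autoImplicit false

namespace Pool.Agent.DK73

open Pool.Agent.Results.MP_15ecc6_co.DoubleCatalan

/-- number of placements -/
def cnt : List Bool → ℕ → ℕ → ℕ
  | [], _, _ => 1
  | true :: l, a, b => ∑ k ∈ Finset.Icc 1 b, cnt l (a + 1) k
  | false :: l, a, b => ∑ k ∈ Finset.Icc 1 a, cnt l k (b + 1)

/-- the factor of the gaps below -/
def al : List Bool → ℕ → ℕ
  | [], _ => 1
  | true :: l, a => al l (a + 1)
  | false :: l, a => ∑ k ∈ Finset.Icc 1 a, al l k

/-- step sequences weakly below the path, from `g` units below it -/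
def Sy : List Bool → ℕ → ℕ
  | [], g => if g = 0 then 1 else 0
  | true :: l, g => Sy l g + Sy l (g + 1)
  | false :: l, g => Sy l g + if g = 0 then 0 else Sy l (g - 1)

open Classical in
/-- the directions `δ n, δ (n + 2), ...` -/
noncomputable def wd (δ : ℕ → Prop) : ℕ → ℕ → List Bool
  | _, 0 => []
  | n, r + 1 => decide (δ n) :: wd δ (n + 2) r

/-- heights of a word -/
def ht : List Bool → ℕ → ℤ
  | [], _ => 0
  | _ :: _, 0 => 0
  | c :: l, t + 1 => (if c then 1 else -1) + ht l t

structure IsPath (L : ℕ) (f : ℕ → ℤ) : Prop where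
  zero : f 0 = 0
  step : ∀ t, t < L → f (t + 1) = f t + 1 ∨ f (t + 1) = f t - 1
  const : ∀ t, L ≤ t → f t = f L

/-- the paths weakly below `H` -/
def Bel (L : ℕ) (H : ℕ → ℤ) : Set (ℕ → ℤ) := {f | IsPath L f ∧ f L = H L ∧ ∀ t, t ≤ L → f t ≤ H t}

/-- the paths weakly above `H` -/
def Abv (L : ℕ) (H : ℕ → ℤ) : Set (ℕ → ℤ) := {f | IsPath L f ∧ f L = H L ∧ ∀ t, t ≤ L → H t ≤ f t}

/-- number of pairs of a path below and a path above -/
noncomputable def PF (L : ℕ) (H : ℕ → ℤ) : ℕ := (Bel L H).ncard * (Abv L H).ncard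

/-- the maximal height `h` is replaced by `h - 2` -/
def cutH (h : ℤ) (H : ℕ → ℤ) (t : ℕ) : ℤ := if H t = h then h - 2 else H t

/-- the alternating path `0, -1, 0, -1, ...` -/
def altH (L t : ℕ) : ℤ := if min t L % 2 = 0 then 0 else -1

/-- the class of strings: the letters of the creases `c_(2i)` and `c_(2i+1)` are different -/
def InK {n : ℕ} (s : Fin n → Bool) : Prop :=
  ∀ i : ℕ, i % 2 = 1 → ∀ h : i + 1 < n, s ⟨i, by omega⟩ ≠ s ⟨i + 1, h⟩

/-- the direction of the crease `c_(i+1)` of the string `s`: up or not -/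
def dirK {n : ℕ} (s : Fin n → Bool) (i : ℕ) : Prop :=
  ∃ h : i < n, (s ⟨i, h⟩ = true ↔ i % 2 = 0)

end Pool.Agent.DK73
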