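import Pool.Agent.DK73.Defs

/-!
# Finiteness of the set of paths, the height function of a word
-/

set_option autoImplicit false

namespace Pool.Agent.DK73

theorem path_bd73 {L : ℕ} {f : ℕ → ℤ} (hf : IsPath L f) (t : ℕ) (ht : t ≤ L) :
    - (t : ℤ) ≤ f t ∧ f t ≤ t := by
  induction t with
  | zero => rw [hf.zero]; simp
  | succ t ih =>
    have h1 := ih (by omega)
    have h2 := hf.step t (by omega)
    push_cast
    omega

theorem path_finite73 (L : ℕ) : {f : ℕ → ℤ | IsPath L f}.Finite := by
  have h1 : (Set.pi Set.univ (fun _ : Fin (L + 1) => Set.Icc (-(L : ℤ)) L)).Finite :=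
    Set.Finite.pi fun _ => Set.finite_Icc _ _
  refine Set.Finite.of_finite_image (f := fun (f : ℕ → ℤ) (i : Fin (L + 1)) => f i)
    (h1.subset ?_) ?_
  · rintro _ ⟨f, hf, rfl⟩ i _
    have h2 := path_bd73 hf i (by omega)
    have h3 := i.2
    constructor
    · show -(L : ℤ) ≤ f i
      omega
    · show f i ≤ (L : ℤ)
      omega
  · intro f hf g hg he
    have h2 : ∀ t, t ≤ L → f t = g t := by
      intro t ht
      exact congrFun he ⟨t, by omega⟩
    funext t
    rcases Nat.le_total t L with ht | ht
    · exact h2 t ht
    · rw [hf.const t ht, hg.const t ht]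
      exact h2 L le_rfl

theorem ht_zero73 (l : List Bool) : ht l 0 = 0 := by
  cases l <;> rfl

theorem ht_path73 (l : List Bool) : IsPath l.length (ht l) := by
  induction l with
  | nil => exact ⟨rfl, fun t h => absurd h (by simp), fun t _ => rfl⟩
  | cons c l ih =>
    refine ⟨rfl, ?_, ?_⟩
    · intro t h
      cases t with
      | zero =>
        show (if c then 1 else -1) + ht l 0 = 0 + 1 ∨ (if c then 1 else -1) + ht l 0 = 0 - 1
        rw [ht_zero73]
        cases c <;> simp
      | succ t =>
        have h2 := ih.step t (by simp at h; omega)
        show (if c then 1 else -1) + ht l (t + 1) = (if c then 1 else -1) + ht l t + 1 ∨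
          (if c then 1 else -1) + ht l (t + 1) = (if c then 1 else -1) + ht l t - 1
        omega
    · intro t h
      cases t with
      | zero => simp at h
      | succ t =>
        have h2 := ih.const t (by simp at h; omega)
        show (if c then 1 else -1) + ht l t = (if c then 1 else -1) + ht l l.length
        rw [h2]

theorem ht_not73 (l : List Bool) (t : ℕ) : ht (l.map (!·)) t = - ht l t := by
  induction l generalizing t with
  | nil => rfl
  | cons c l ih =>
    cases t with
    | zero => rfl
    | succ t =>
      show (if (!c) = true then (1 : ℤ) else -1) + ht (l.map (!·)) t = - ((if c then 1 else -1) + ht l t)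
      rw [ih]
      cases c <;> simp <;> ring

theorem ht_inj73 {l l' : List Bool} (h : l.length = l'.length) (hh : ht l = ht l') : l = l' := by
  induction l generalizing l' with
  | nil =>
    cases l' with
    | nil => rfl
    | cons c l' => simp at h
  | cons c l ih =>
    cases l' with
    | nil => simp at h
    | cons c' l' =>
      have h1 := congrFun hh 1
      have h2 : (if c then (1 : ℤ) else -1) + ht l 0 = (if c' then 1 else -1) + ht l' 0 := h1
      rw [ht_zero73, ht_zero73] at h2
      have hc : c = c' := by
        cases c <;> cases c' <;> simp at h2 ⊢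
      subst hc
      have h3 : ht l = ht l' := by
        funext t
        have h4 : (if c then (1 : ℤ) else -1) + ht l t = (if c then 1 else -1) + ht l' t :=
          congrFun hh (t + 1)
        omega
      rw [ih (by simpa using h) h3]

end Pool.Agent.DK73
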