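import Pool.Agent.DK73.Defs

/-! # DK73/PathsC28: paths above and below, `PF` -/

set_option autoImplicit false

namespace Pool.Agent.DK73

theorem IsPath.neg28 {L : ℕ} {f : ℕ → ℤ} (h : IsPath L f) : IsPath L (fun t => - f t) where
  zero := by simp [h.zero]
  step := fun t ht => by
    rcases h.step t ht with h1 | h1
    · right; rw [h1]; ring
    · left; rw [h1]; ring
  const := fun t ht => by rw [h.const t ht]

theorem ncard_Abv28 (L : ℕ) (H : ℕ → ℤ) : (Abv L H).ncard = (Bel L (fun t => - H t)).ncard := by
  have e : Bel L (fun t => - H t) = (fun f : ℕ → ℤ => fun t => - f t) '' Abv L H := by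
    ext f
    constructor
    · rintro ⟨h1, h2, h3⟩
      refine ⟨fun t => - f t, ⟨h1.neg28, ?_, fun t ht => ?_⟩, ?_⟩
      · show - f L = H L
        rw [h2]; ring
      · have := h3 t ht
        show H t ≤ - f t
        have h4 : f t ≤ - H t := this
        linarith
      · funext t
        show - - f t = f t
        ring
    · rintro ⟨f', ⟨h1, h2, h3⟩, rfl⟩
      refine ⟨h1.neg28, ?_, fun t ht => ?_⟩
      · show - f' L = - H L
        rw [h2]
      · show - f' t ≤ - H t
        have := h3 t ht
        linarith
  rw [e, Set.ncard_image_of_injective]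
  intro f f' h
  funext t
  have : - f t = - f' t := congrFun h t
  linarith

theorem PF_neg28 (L : ℕ) (H : ℕ → ℤ) : PF L (fun t => - H t) = PF L H := by
  unfold PF
  rw [ncard_Abv28 L H, ncard_Abv28 L (fun t => - H t)]
  have : (fun t => - (- H t)) = H := by funext t; ring
  rw [this, mul_comm]

theorem cnt_PF28 (h1 : ∀ (l : List Bool) (a b : ℕ), cnt l a b = al l a * al (l.map (!·)) b)
    (h2 : ∀ l : List Bool, al l 1 = Sy l 0) (h3 : ∀ l : List Bool, (Bel l.length (ht l)).ncard = Sy l 0)
    (h4 : ∀ (l : List Bool) (t : ℕ), ht (l.map (!·)) t = - ht l t) (l : List Bool) :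
    cnt l 1 1 = PF l.length (ht l) := by
  unfold PF
  rw [h1, h2, h2, ← h3, ← h3, ncard_Abv28, List.length_map]
  have : ht (l.map (!·)) = fun t => - ht l t := by funext t; exact h4 l t
  rw [this]

end Pool.Agent.DK73
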