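import Pool.Agent.DK73.Defs

/-!
# DK73/PathsS7: proof of `ncard_Bel`
-/

set_option autoImplicit false

namespace Pool.Agent.DK73

/-- the paths below `ht l` which start at `a` -/
def GS (l : List Bool) (a : ℤ) : Set (ℕ → ℤ) :=
  {f | f 0 = a ∧ (∀ t, t < l.length → f (t + 1) = f t + 1 ∨ f (t + 1) = f t - 1) ∧
    (∀ t, l.length ≤ t → f t = f l.length) ∧ f l.length = ht l l.length ∧
    ∀ t, t ≤ l.length → f t ≤ ht l t}

/-- put the value `a` in front and shift by `s` -/
def gcons (a s : ℤ) (h : ℕ → ℤ) : ℕ → ℤ
  | 0 => a
  | t + 1 => h t + s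

theorem gcons_inj (a s : ℤ) : Function.Injective (gcons a s) := by
  intro h h' e
  funext t
  have := congrFun e (t + 1)
  simp only [gcons] at this
  linarith

theorem ht_zero (l : List Bool) : ht l 0 = 0 := by cases l <;> rfl

theorem GS_cons (c : Bool) (l : List Bool) {a s : ℤ} (ha : a ≤ 0) (hs : s = if c then 1 else -1) :
    GS (c :: l) a = gcons a s '' (GS l (a + 1 - s) ∪ GS l (a - 1 - s)) := by
  have hht : ∀ t, ht (c :: l) (t + 1) = s + ht l t := by
    intro t
    rw [hs]
    rfl
  ext f
  constructor
  · rintro ⟨h0, hst, hc, hL, hle⟩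
    simp only [List.length_cons] at hst hc hL hle
    refine ⟨fun t => f (t + 1) - s, ?_, ?_⟩
    · have hrest : (∀ t, t < l.length → f (t + 1 + 1) - s = f (t + 1) - s + 1 ∨
          f (t + 1 + 1) - s = f (t + 1) - s - 1) ∧
          (∀ t, l.length ≤ t → f (t + 1) - s = f (l.length + 1) - s) ∧
          f (l.length + 1) - s = ht l l.length ∧
          ∀ t, t ≤ l.length → f (t + 1) - s ≤ ht l t := by
        refine ⟨fun t ht => ?_, fun t ht => ?_, ?_, fun t ht => ?_⟩
        · rcases hst (t + 1) (by omega) with h | h
          · left; omega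
          · right; omega
        · have := hc (t + 1) (by omega)
          omega
        · have := hht l.length
          omega
        · have h1 := hle (t + 1) (by omega)
          have h2 := hht t
          omega
      rcases hst 0 (by omega) with h | h
      · left
        refine ⟨?_, hrest⟩
        show f (0 + 1) - s = a + 1 - s
        omega
      · right
        refine ⟨?_, hrest⟩
        show f (0 + 1) - s = a - 1 - s
        omega
    · funext t
      cases t with
      | zero => exact h0.symm
      | succ t =>
        show f (t + 1) - s + s = f (t + 1)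
        ring
  · rintro ⟨h, hh, rfl⟩
    have key : ∀ b : ℤ, (b = a + 1 - s ∨ b = a - 1 - s) → h ∈ GS l b →
        gcons a s h ∈ GS (c :: l) a := by
      rintro b hb ⟨h0, hst, hc, hL, hle⟩
      refine ⟨rfl, fun t hlt => ?_, fun t hlt => ?_, ?_, fun t hlt => ?_⟩
      · cases t with
        | zero =>
          show h 0 + s = a + 1 ∨ h 0 + s = a - 1
          rcases hb with hb | hb
          · left; omega
          · right; omega
        | succ t =>
          show h (t + 1) + s = h t + s + 1 ∨ h (t + 1) + s = h t + s - 1
          simp only [List.length_cons] at hlt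
          rcases hst t (by omega) with h1 | h1
          · left; omega
          · right; omega
      · cases t with
        | zero => simp at hlt
        | succ t =>
          simp only [List.length_cons] at hlt
          show h t + s = h l.length + s
          rw [hc t (by omega)]
      · show h l.length + s = ht (c :: l) (l.length + 1)
        rw [hht, hL]
        ring
      · cases t with
        | zero =>
          show a ≤ ht (c :: l) 0
          rw [ht_zero]
          exact ha
        | succ t =>
          simp only [List.length_cons] at hlt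
          show h t + s ≤ ht (c :: l) (t + 1)
          rw [hht]
          have := hle t (by omega)
          omega
    rcases hh with hh | hh
    · exact key _ (Or.inl rfl) hh
    · exact key _ (Or.inr rfl) hh

theorem GS_pos (l : List Bool) {a : ℤ} (ha : 0 < a) : GS l a = ∅ := by
  ext f
  simp only [Set.mem_empty_iff_false, iff_false]
  rintro ⟨h0, -, -, -, hle⟩
  have := hle 0 (Nat.zero_le _)
  rw [ht_zero, h0] at this
  omega

theorem GS_card (l : List Bool) : ∀ g : ℕ, (GS l (-2 * (g : ℤ))).encard = Sy l g := by
  induction l with
  | nil =>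
    intro g
    by_cases hg : g = 0
    · subst hg
      have : GS [] (-2 * ((0 : ℕ) : ℤ)) = {fun _ => 0} := by
        ext f
        constructor
        · rintro ⟨h0, -, hc, -, -⟩
          rw [Set.mem_singleton_iff]
          funext t
          have h1 := hc t (Nat.zero_le _)
          simp only [List.length_nil] at h1
          rw [h1, h0]
          simp
        · intro hf
          rw [Set.mem_singleton_iff] at hf
          subst hf
          refine ⟨by simp, fun t ht => by simp at ht, fun t _ => rfl, rfl, fun t _ => le_refl _⟩
      rw [this, Set.encard_singleton]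
      simp [Sy]
    · have : GS [] (-2 * (g : ℤ)) = ∅ := by
        ext f
        simp only [Set.mem_empty_iff_false, iff_false]
        rintro ⟨h0, -, -, hL, -⟩
        have h1 : f 0 = 0 := hL
        omega
      rw [this, Set.encard_empty]
      simp [Sy, hg]
  | cons c l ih =>
    intro g
    have hneg : -2 * (g : ℤ) ≤ 0 := by omega
    have hdis : ∀ s : ℤ, Disjoint (GS l (-2 * (g : ℤ) + 1 - s)) (GS l (-2 * (g : ℤ) - 1 - s)) := by
      intro s
      rw [Set.disjoint_left]
      rintro f ⟨h0, -⟩ ⟨h1, -⟩
      omega
    cases c with
    | true =>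
      rw [GS_cons true l hneg (s := 1) rfl, (gcons_inj _ _).encard_image,
        Set.encard_union_eq (hdis 1)]
      have e1 : -2 * (g : ℤ) + 1 - 1 = -2 * (g : ℤ) := by ring
      have e2 : -2 * (g : ℤ) - 1 - 1 = -2 * ((g + 1 : ℕ) : ℤ) := by push_cast; ring
      rw [e1, e2, ih, ih]
      simp [Sy]
    | false =>
      rw [GS_cons false l hneg (s := -1) rfl, (gcons_inj _ _).encard_image,
        Set.encard_union_eq (hdis (-1))]
      have e1 : -2 * (g : ℤ) - 1 - -1 = -2 * (g : ℤ) := by ring
      rw [e1, ih]
      by_cases hg : g = 0
      · subst hg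
        rw [GS_pos l (by norm_num), Set.encard_empty]
        simp [Sy]
      · have e2 : -2 * (g : ℤ) + 1 - -1 = -2 * ((g - 1 : ℕ) : ℤ) := by
          obtain ⟨k, rfl⟩ : ∃ k, g = k + 1 := ⟨g - 1, by omega⟩
          push_cast
          simp
          ring
        rw [e2, ih]
        simp only [Sy, hg, if_false]
        push_cast
        ring

theorem ncard_Bel_S7 (l : List Bool) : (Bel l.length (ht l)).ncard = Sy l 0 := by
  have h1 : Bel l.length (ht l) = GS l (-2 * ((0 : ℕ) : ℤ)) := by
    ext f
    constructor
    · rintro ⟨⟨h0, hst, hc⟩, hL, hle⟩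
      exact ⟨by rw [h0]; simp, hst, hc, hL, hle⟩
    · rintro ⟨h0, hst, hc, hL, hle⟩
      exact ⟨⟨by rw [h0]; simp, hst, hc⟩, hL, hle⟩
  rw [h1, Set.ncard, GS_card]
  rfl

end Pool.Agent.DK73
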