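import Pool.Agent.DK73.Alg
import Pool.Agent.DK73.PathsA73
import Pool.Agent.DK73.PathsC28
import Pool.Agent.DK73.PathsS7

/-!
# Counting paths

`bel_finite`: a path is determined by its values at `t ≤ L`, which lie in `[-L, L]` (or by its `L` steps).
`ncard_Bel`: more generally for `g : ℕ` the number of `f` with `f 0 = -2 g`, steps `±1` for `t < l.length`,
`f t = f L` for `t ≥ L`, `f L = ht l L` and `f t ≤ ht l t` for `t ≤ L` is `Sy l g`; induction on `l`: for `c :: l`
look at the first step of `f` and pass to `t ↦ f (t + 1) - (if c then 1 else -1)`, which starts at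
`- 2 g` or `- 2 (g + 1)` (`c = true`), at `- 2 g` or `- 2 (g - 1)` (`c = false`; in the second case `f 1 ≤ ht 1`
forces `g ≥ 1`).
`ncard_Abv`: the map `f ↦ - f`. `cnt_PF`: `cnt_eq`, `al_one`, `ncard_Bel`, `ncard_Abv`, `ht_not`.
-/

set_option autoImplicit false

namespace Pool.Agent.DK73

theorem path_finite (L : ℕ) : {f : ℕ → ℤ | IsPath L f}.Finite :=
  path_finite73 L

theorem bel_finite (L : ℕ) (H : ℕ → ℤ) : (Bel L H).Finite :=
  (path_finite L).subset fun _ hf => hf.1

theorem abv_finite (L : ℕ) (H : ℕ → ℤ) : (Abv L H).Finite :=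
  (path_finite L).subset fun _ hf => hf.1

theorem ht_path (l : List Bool) : IsPath l.length (ht l) :=
  ht_path73 l

theorem ht_not (l : List Bool) (t : ℕ) : ht (l.map (!·)) t = - ht l t :=
  ht_not73 l t

theorem ht_inj {l l' : List Bool} (h : l.length = l'.length) (hh : ht l = ht l') : l = l' :=
  ht_inj73 h hh

theorem ncard_Bel (l : List Bool) : (Bel l.length (ht l)).ncard = Sy l 0 :=
  ncard_Bel_S7 l

theorem ncard_Abv (L : ℕ) (H : ℕ → ℤ) : (Abv L H).ncard = (Bel L (fun t => - H t)).ncard :=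
  ncard_Abv28 L H

theorem PF_neg (L : ℕ) (H : ℕ → ℤ) : PF L (fun t => - H t) = PF L H :=
  PF_neg28 L H

theorem cnt_PF (l : List Bool) : cnt l 1 1 = PF l.length (ht l) :=
  cnt_PF28 cnt_eq al_one ncard_Bel ht_not l

end Pool.Agent.DK73
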