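import Pool.Agent.DK73.PermS80

/-!
# From permutations to height functions

The proofs of `hts_st`, `perm_of_st`, `numStates_vvmm` (base file) with `vvmm n` replaced by `s` and `dirs` by `dirK s`.
-/

set_option autoImplicit false

namespace Pool.Agent.DK73

open Pool.Agent.Results.MP_15ecc6_co.DoubleCatalan

theorem numStates_dir {n : ℕ} (s : Fin n → Bool) :
    numStates s = Set.ncard {g : ℕ → ℕ | St n (dirK s) g} := by
  exact PermS80.numStates_dir s

end Pool.Agent.DK73
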