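import Pool.Agent.DK73.Count
import Pool.Agent.DK73.Perm
import Pool.Agent.DK73.Paths

/-!
# DK73/MainAS84: the words of the strings of the class
-/

set_option autoImplicit false

namespace Pool.Agent.DK73

open Pool.Agent.Results.MP_15ecc6_co.DoubleCatalan

theorem len_wd84 (δ : ℕ → Prop) (r : ℕ) : ∀ n, (wd δ n r).length = r := by
  induction r with
  | zero => intro n; rfl
  | succ r ih =>
    intro n
    rw [wd, List.length_cons, ih]

open Classical in
theorem wd_inj84 (δ δ' : ℕ → Prop) (r : ℕ) : ∀ n, wd δ n r = wd δ' n r →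
    ∀ k, k < r → (δ (n + 2 * k) ↔ δ' (n + 2 * k)) := by
  induction r with
  | zero => intro n _ k hk; omega
  | succ r ih =>
    intro n h k hk
    rw [wd, wd, List.cons.injEq] at h
    rcases k with _ | k
    · rw [Nat.mul_zero, Nat.add_zero]
      exact decide_eq_decide.mp h.1
    · have h1 := ih (n + 2) h.2 k (by omega)
      have h2 : n + 2 * (k + 1) = n + 2 + 2 * k := by ring
      rw [h2]
      exact h1

theorem dir_iff84 {n : ℕ} (s : Fin n → Bool) {i : ℕ} (h : i < n) :
    dirK s i ↔ (s ⟨i, h⟩ = true ↔ i % 2 = 0) :=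
  ⟨fun ⟨_, h'⟩ => h', fun h' => ⟨h, h'⟩⟩

theorem dir_pair84 {n : ℕ} {s : Fin n → Bool} (hs : InK s) (i : ℕ) (hi : i % 2 = 1)
    (h : i + 1 < n) : dirK s i ↔ dirK s (i + 1) := by
  rw [dir_iff84 s (by omega : i < n), dir_iff84 s h]
  have h1 := hs i hi h
  have h2 : (i + 1) % 2 = 0 := by omega
  rw [hi, h2]
  revert h1
  cases s ⟨i, by omega⟩ <;> cases s ⟨i + 1, h⟩ <;> simp

open Classical in
/-- the word of `s` -/
noncomputable def epsW84 {n : ℕ} (s : Fin n → Bool) : List Bool :=
  decide (dirK s 0) :: wd (dirK s) 1 (n / 2)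

theorem len_eps84 {n : ℕ} (s : Fin n → Bool) : (epsW84 s).length = n / 2 + 1 := by
  rw [epsW84, List.length_cons, len_wd84]

theorem num_eps84 {n : ℕ} (hn : 1 ≤ n) (s : Fin n → Bool) (hs : InK s) :
    numStates s = PF (n / 2 + 1) (ht (epsW84 s)) := by
  rw [numStates_dir, card_gen n hn (dirK s) (dir_pair84 hs)]
  have h1 := cnt_PF (epsW84 s)
  rw [len_eps84] at h1
  exact h1

theorem eps_inj84 {n : ℕ} (hn : 1 ≤ n) {s s' : Fin n → Bool} (hs : InK s) (hs' : InK s')
    (h : epsW84 s = epsW84 s') : s = s' := by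
  classical
  rw [epsW84, epsW84, List.cons.injEq] at h
  have h0 : dirK s 0 ↔ dirK s' 0 := decide_eq_decide.mp h.1
  have h1 := wd_inj84 (dirK s) (dirK s') (n / 2) 1 h.2
  have hodd : ∀ i, i % 2 = 1 → i < n → (dirK s i ↔ dirK s' i) := by
    intro i hi hin
    have h2 := h1 (i / 2) (by omega)
    have h3 : 1 + 2 * (i / 2) = i := by omega
    rwa [h3] at h2
  have hall : ∀ i, i < n → (dirK s i ↔ dirK s' i) := by
    intro i hin
    rcases Nat.eq_zero_or_pos i with h2 | h2
    · rw [h2]
      exact h0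
    · rcases Nat.mod_two_eq_zero_or_one i with h3 | h3
      · obtain ⟨j, rfl⟩ : ∃ j, i = j + 1 := ⟨i - 1, by omega⟩
        rw [← dir_pair84 hs j (by omega) hin, ← dir_pair84 hs' j (by omega) hin]
        exact hodd j (by omega) (by omega)
      · exact hodd i h3 hin
  funext i
  have h4 := hall i.1 i.2
  rw [dir_iff84 s i.2, dir_iff84 s' i.2] at h4
  have h5 : (s i = true ↔ s' i = true) := by
    by_cases h6 : i.1 % 2 = 0
    · simpa [h6] using h4
    · have h7 : ((s i = true) ↔ False) ↔ ((s' i = true) ↔ False) := by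
        simpa only [h6] using h4
      tauto
  exact Bool.eq_iff_iff.mpr h5

theorem vvmm_inK84 (n : ℕ) : InK (vvmm n) := by
  intro i hi h
  unfold vvmm
  intro h1
  rw [decide_eq_decide] at h1
  simp only at h1
  omega

theorem not_inK84 (n : ℕ) : InK (fun i : Fin n => !vvmm n i) := by
  intro i hi h h1
  exact vvmm_inK84 n i hi h (Bool.not_inj h1)

end Pool.Agent.DK73
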