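import Pool.Agent.DK73.Defs

/-!
# Proofs of `eps_vvmm` and `eps_not` (helper91)

The word of the directions alternates; `ht_alt` by induction on the length.
-/

set_option autoImplicit false

namespace Pool.Agent.DK73.MainS91

open Pool.Agent.Results.MP_15ecc6_co.DoubleCatalan Pool.Agent.DK73

theorem altH_zero (L : ℕ) : altH L 0 = 0 := by
  unfold altH
  rw [Nat.zero_min]
  rfl

theorem altH_succ (L t : ℕ) : altH (L + 1) (t + 1) = -1 - altH L t := by
  unfold altH
  rw [← Nat.succ_eq_add_one, ← Nat.succ_eq_add_one, Nat.succ_min_succ]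
  by_cases h : min t L % 2 = 0
  · rw [if_pos h, if_neg (by omega)]
    ring
  · rw [if_neg h, if_pos (by omega)]
    ring

theorem ht_zero (l : List Bool) : ht l 0 = 0 := by
  cases l <;> rfl

theorem ht_alt (r : ℕ) : ∀ (δ : ℕ → Prop) (m : ℕ),
    ((∀ j, j < r → (δ (m + 2 * j) ↔ j % 2 = 1)) → ∀ t, ht (wd δ m r) t = altH r t) ∧
    ((∀ j, j < r → (δ (m + 2 * j) ↔ j % 2 = 0)) → ∀ t, ht (wd δ m r) t = - altH r t) := by
  induction r with
  | zero =>
    intro δ m
    constructor
    · intro _ t
      rw [wd, ht]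
      unfold altH
      rw [Nat.min_zero, if_pos rfl]
    · intro _ t
      rw [wd, ht]
      unfold altH
      rw [Nat.min_zero, if_pos rfl, neg_zero]
  | succ r ih =>
    intro δ m
    obtain ⟨ih1, ih2⟩ := ih δ (m + 2)
    constructor
    · intro h t
      cases t with
      | zero => rw [ht_zero, altH_zero]
      | succ t =>
        have h0 : ¬ δ m := by
          intro h1
          have := (h 0 (by omega)).1 (by simpa using h1)
          omega
        have h1 := ih2 (fun j hj => by
          have h2 := h (j + 1) (by omega)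
          rw [show m + 2 + 2 * j = m + 2 * (j + 1) by ring, h2]
          omega) t
        rw [wd, ht, h1, altH_succ]
        simp only [h0, decide_false, Bool.false_eq_true, if_false]
        ring
    · intro h t
      cases t with
      | zero => rw [ht_zero, altH_zero, neg_zero]
      | succ t =>
        have h0 : δ m := by
          have := (h 0 (by omega)).2 rfl
          simpa using this
        have h1 := ih1 (fun j hj => by
          have h2 := h (j + 1) (by omega)
          rw [show m + 2 + 2 * j = m + 2 * (j + 1) by ring, h2]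
          omega) t
        rw [wd, ht, h1, altH_succ]
        simp only [h0, decide_true, if_true]
        ring

theorem vvmm_true {n : ℕ} (i : Fin n) : vvmm n i = true ↔ (i : ℕ) % 4 < 2 := by
  unfold vvmm
  exact decide_eq_true_iff

theorem dir_vvmm {n i : ℕ} (h : i < n) : dirK (vvmm n) i ↔ (i % 4 < 2 ↔ i % 2 = 0) := by
  unfold dirK
  constructor
  · rintro ⟨h1, h2⟩
    rw [vvmm_true] at h2
    exact h2
  · intro h2
    refine ⟨h, ?_⟩
    rw [vvmm_true]
    exact h2

theorem dir_not {n i : ℕ} (h : i < n) :
    dirK (fun i : Fin n => !vvmm n i) i ↔ ¬ (i % 4 < 2 ↔ i % 2 = 0) := by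
  have h3 : ((!vvmm n ⟨i, h⟩) = true) ↔ ¬ (i % 4 < 2) := by
    rw [← vvmm_true ⟨i, h⟩]
    cases vvmm n ⟨i, h⟩ <;> simp
  unfold dirK
  constructor
  · rintro ⟨h1, h2⟩
    have h4 : ¬ (i % 4 < 2) ↔ i % 2 = 0 := h3.symm.trans h2
    tauto
  · intro h2
    refine ⟨h, ?_⟩
    have h4 : ¬ (i % 4 < 2) ↔ i % 2 = 0 := by tauto
    exact h3.trans h4

open Classical in
theorem eps_vvmm (n : ℕ) (hn : 1 ≤ n) :
    ht (decide (dirK (vvmm n) 0) :: wd (dirK (vvmm n)) 1 (n / 2)) =
      fun t => - altH (n / 2 + 1) t := by
  funext t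
  cases t with
  | zero => rw [ht_zero, altH_zero, neg_zero]
  | succ t =>
    have h0 : dirK (vvmm n) 0 := (dir_vvmm (by omega)).2 (by omega)
    have h1 := (ht_alt (n / 2) (dirK (vvmm n)) 1).1 (fun j hj => by
      rw [dir_vvmm (by omega)]
      omega) t
    rw [ht, h1, altH_succ]
    simp only [h0, decide_true, if_true]
    ring

open Classical in
theorem eps_not (n : ℕ) (hn : 1 ≤ n) :
    ht (decide (dirK (fun i : Fin n => !vvmm n i) 0) ::
      wd (dirK (fun i : Fin n => !vvmm n i)) 1 (n / 2)) = altH (n / 2 + 1) := by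
  funext t
  cases t with
  | zero => rw [ht_zero, altH_zero]
  | succ t =>
    have h0 : ¬ dirK (fun i : Fin n => !vvmm n i) 0 := by
      rw [dir_not (by omega)]
      omega
    have h1 := (ht_alt (n / 2) (dirK (fun i : Fin n => !vvmm n i)) 1).2 (fun j hj => by
      rw [dir_not (by omega)]
      omega) t
    rw [ht, h1, altH_succ]
    simp only [h0, decide_false, Bool.false_eq_true, if_false]
    ring

end Pool.Agent.DK73.MainS91
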