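import Pool.Agent.DK73.SwapInj

/-!
# DK73/StrictS58: strictness for `h ≥ 2`
-/

set_option autoImplicit false

namespace Pool.Agent.DK73

theorem s58_par {L : ℕ} {f : ℕ → ℤ} (hf : IsPath L f) : ∀ t, t ≤ L → (f t + t) % 2 = 0 := by
  intro t
  induction t with
  | zero => intro _; rw [hf.zero]; simp
  | succ t ih =>
    intro ht
    have h1 := ih (by omega)
    have h2 := hf.step t (by omega)
    push_cast
    rcases h2 with h | h <;> rw [h] <;> omega

theorem s58_low {L : ℕ} {f : ℕ → ℤ} (hf : IsPath L f) : ∀ t, t ≤ L → -(t : ℤ) ≤ f t := by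
  intro t
  induction t with
  | zero => intro _; rw [hf.zero]; simp
  | succ t ih =>
    intro ht
    have h1 := ih (by omega)
    have h2 := hf.step t (by omega)
    push_cast
    rcases h2 with h | h <;> rw [h] <;> omega

theorem s58_high {L : ℕ} {f : ℕ → ℤ} (hf : IsPath L f) :
    ∀ k, k ≤ L → f L - k ≤ f (L - k) := by
  intro k
  induction k with
  | zero => intro _; simp
  | succ k ih =>
    intro hk
    have h1 := ih (by omega)
    have h2 := hf.step (L - (k + 1)) (by omega)
    have h3 : L - (k + 1) + 1 = L - k := by omega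
    rw [h3] at h2
    push_cast
    rcases h2 with h | h <;> omega

/-- the lowest path with end point `e` -/
def s58P (L : ℕ) (e : ℤ) (t : ℕ) : ℤ :=
  max (-((min t L : ℕ) : ℤ)) (e - L + ((min t L : ℕ) : ℤ))

theorem s58P_path {L : ℕ} {e : ℤ} (he : (e + L) % 2 = 0) (he' : -(L : ℤ) ≤ e) (he'' : e ≤ L) :
    IsPath L (s58P L e) := by
  refine ⟨?_, ?_, ?_⟩
  · unfold s58P
    rw [Nat.zero_min]
    simp only [Nat.cast_zero, neg_zero, add_zero]
    exact max_eq_left (by omega)
  · intro t ht
    unfold s58P
    rw [min_eq_left (show t + 1 ≤ L from ht), min_eq_left ht.le]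
    push_cast
    rcases le_or_gt (2 * (t : ℤ) + 2) (L - e) with h | h
    · right
      rw [max_eq_left (by omega), max_eq_left (by omega)]
      omega
    · left
      rw [max_eq_right (by omega), max_eq_right (by omega)]
      omega
  · intro t ht
    unfold s58P
    rw [min_eq_right ht, min_self]

theorem s58P_end {L : ℕ} {e : ℤ} (he' : -(L : ℤ) ≤ e) : s58P L e L = e := by
  unfold s58P
  rw [min_self, max_eq_right (by omega)]
  omega

theorem lt_two58 {L : ℕ} {h : ℤ} {H : ℕ → ℤ} (hH : IsPath L H) (hh : 2 ≤ h)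
    (hm : ∀ t, t ≤ L → H t ≤ h) {t0 : ℕ} (ht0 : t0 ≤ L) (h0 : H t0 = h) :
    PF L H < PF L (cutH h H) := by
  have hc : IsPath L (cutH h H) := cut_path hH (by omega) hm
  have hce := s58_par hc L le_rfl
  have hcl := s58_low hc L le_rfl
  have hcu : cutH h H L ≤ L := by
    have := s58_high hc L le_rfl
    rw [Nat.sub_self, hc.zero] at this
    omega
  have hcm : ∀ t, t ≤ L → cutH h H t ≤ h - 1 := by
    intro t ht
    have := hm t ht
    unfold cutH
    split_ifs with h1
    · omega
    · omega
  have hct : cutH h H t0 = h - 2 := by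
    unfold cutH
    rw [if_pos h0]
  refine PF_lt hH (by omega) hm ⟨s58P L (cutH h H L), ⟨s58P_path hce hcl hcu, s58P_end hcl, ?_⟩,
    cutH h H, ⟨hc, rfl, fun t _ => le_rfl⟩, ?_⟩
  · intro t ht
    have h1 := s58_low hc t ht
    have h2 := s58_high hc (L - t) (by omega)
    have h3 : L - (L - t) = t := by omega
    rw [h3] at h2
    unfold s58P
    rw [min_eq_left ht]
    refine max_le h1 ?_
    have h4 : ((L - t : ℕ) : ℤ) = (L : ℤ) - t := by push_cast [Nat.cast_sub ht]; ring
    rw [h4] at h2
    omega
  · rintro P hP Q hQ ⟨e1, e2⟩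
    have hsw : Sw L h P Q 0 := by
      refine (sw_char hH (by omega) hm hP hQ (Nat.zero_le L)).2 ⟨t0, ht0, h0, ?_, ?_⟩
      · rw [e2]; exact hct
      · intro u _ hu
        rw [Nat.zero_max] at hu
        rw [e1, e2]
        have huL : u ≤ L := hu.trans ht0
        have h5 := hcm u huL
        have h6 := hcm L le_rfl
        rcases huL.eq_or_lt with h7 | h7
        · have h8 : t0 = L := le_antisymm ht0 (h7 ▸ hu)
          rw [h8] at hct
          rw [h7, s58P_end hcl, hct]
          omega
        · unfold s58P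
          rw [min_eq_left huL]
          have : max (-(u : ℤ)) (cutH h H L - L + u) ≤ h - 2 := by
            refine max_le ?_ ?_
            · omega
            · omega
          omega
    exact sw_zero hP.1 hQ.1 (by omega) hsw

end Pool.Agent.DK73

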