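import Pool.Agent.DK73.SwapInj

/-!
# Strictness for the maximal height 1
-/

set_option autoImplicit false

namespace Pool.Agent.DK73.StrictS6

open Pool.Agent.DK73

theorem lt_one {L : ℕ} {H : ℕ → ℤ} (hH : IsPath L H)
    (hm : ∀ t, t ≤ L → H t ≤ 1) (hm' : ∀ t, t ≤ L → -1 ≤ H t) {t0 t1 : ℕ} (ht0 : t0 ≤ L) (ht1 : t1 ≤ L)
    (h0 : H t0 = 1) (h1 : H t1 = -1) : PF L H < PF L (cutH 1 H) := by
  have hpar : ∀ t, t ≤ L → (H t - t) % 2 = 0 := by
    intro t
    induction t with
    | zero =>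
      intro _
      rw [hH.zero]
      norm_num
    | succ t ih =>
      intro ht
      have h2 := ih (by omega)
      rcases hH.step t (by omega) with h3 | h3 <;> rw [h3] <;> push_cast <;> omega
  have hev : ∀ t, t ≤ L → t % 2 = 0 → cutH 1 H t = 0 := by
    intro t ht h2
    have h3 := hpar t ht
    have h4 := hm t ht
    have h5 := hm' t ht
    unfold cutH
    split_ifs <;> omega
  have hod : ∀ t, t ≤ L → t % 2 = 1 → cutH 1 H t = -1 := by
    intro t ht h2
    have h3 := hpar t ht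
    have h4 := hm t ht
    have h5 := hm' t ht
    unfold cutH
    split_ifs <;> omega
  have hcp := cut_path hH le_rfl hm
  have p0 := hpar t0 ht0
  have p1 := hpar t1 ht1
  rw [h0] at p0
  rw [h1] at p1
  refine PF_lt hH le_rfl hm ?_
  obtain ⟨P', hP'⟩ : ∃ P' : ℕ → ℤ, ∀ t, P' t =
      if t % 2 = 0 ∧ min t0 t1 < t ∧ t < max t0 t1 then -2 else cutH 1 H t := ⟨_, fun _ => rfl⟩
  have hPo : ∀ t, t ≤ L → t % 2 = 1 → P' t = -1 := by
    intro t ht h2
    rw [hP', if_neg (by omega), hod t ht h2]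
  have hPe : ∀ t, t ≤ L → t % 2 = 0 → P' t = 0 ∨ P' t = -2 := by
    intro t ht h2
    rw [hP']
    by_cases h : t % 2 = 0 ∧ min t0 t1 < t ∧ t < max t0 t1
    · rw [if_pos h]; exact Or.inr rfl
    · rw [if_neg h, hev t ht h2]; exact Or.inl rfl
  have hPL : ∀ t, L ≤ t → P' t = cutH 1 H t := by
    intro t ht
    rw [hP', if_neg (by omega)]
  refine ⟨P', ⟨⟨?_, ?_, ?_⟩, hPL L le_rfl, ?_⟩, cutH 1 H, ⟨hcp, rfl, fun t _ => le_rfl⟩, ?_⟩
  · rw [hP', if_neg (by omega)]
    exact hcp.zero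
  · intro t ht
    rcases Nat.mod_two_eq_zero_or_one t with h2 | h2
    · have e1 := hPo (t + 1) ht (by omega)
      rcases hPe t ht.le h2 with e2 | e2 <;> rw [e1, e2] <;> norm_num
    · have e1 := hPo t ht.le h2
      rcases hPe (t + 1) ht (by omega) with e2 | e2 <;> rw [e1, e2] <;> norm_num
  · intro t ht
    rw [hPL t ht, hPL L le_rfl]
    exact hcp.const t ht
  · intro t ht
    rcases Nat.mod_two_eq_zero_or_one t with h2 | h2
    · rw [hev t ht h2]
      rcases hPe t ht h2 with e2 | e2 <;> simp only [e2] <;> norm_num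
    · rw [hPo t ht h2, hod t ht h2]
  · rintro P hP Q hQ ⟨e1, e2⟩
    have hsw : Sw L 1 P Q t1 := by
      rw [sw_char hH le_rfl hm hP hQ ht1]
      refine ⟨t0, ht0, h0, ?_, ?_⟩
      · rw [e2, hod t0 ht0 (by omega)]
        norm_num
      · intro u hu1 hu2
        rw [e1, e2]
        have huL : u ≤ L := hu2.trans (by omega)
        rcases Nat.mod_two_eq_zero_or_one u with h2 | h2
        · rw [hev u huL h2, hP', if_pos (by omega)]
          norm_num
        · rw [hPo u huL h2, hod u huL h2]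
          norm_num
    have h2 : sQ L 1 P Q t1 = -1 := by
      rw [e2, hod t1 ht1 (by omega)]
    unfold sQ at h2
    rw [Nat.min_eq_left ht1, if_pos hsw] at h2
    have h3 := hP.2.2 t1 ht1
    omega

end Pool.Agent.DK73.StrictS6
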