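import Pool.Agent.DK73.SwapInj
import Pool.Agent.DK73.StrictS58
import Pool.Agent.DK73.StrictS6

/-!
# Strictness

`lt_two` (`h ≥ 2`): let `H t0 = h`. `Q' = cutH h H`, `P'` = the lowest path with the end point of `cutH h H` (first down,
then up). `P' t ≤ cutH t ≤ h - 1` and `P' t ≤ h - 2` for `t < L` (the lowest path has its maximum `0 ≤ h - 2` at `0` or its
end value at `L`, before it is lower). So `P' u + Q' u < 2 h - 2` for all `u < L`, also for `u = L` if `t0 = L` (then both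
end at `h - 2`). If `(P', Q')` were the image of `(P, Q)`, then by `sw_char` (`t = 0`, `t' = t0`) the time `0` would be
exchanged, in contradiction to `sw_zero`.

`lt_one` (`h = 1`, all heights in `[-1, 1]`, `H t0 = 1`, `H t1 = -1`): `t0`, `t1` are odd, `cutH 1 H` is `0` at even and `-1`
at odd times. `Q' = cutH 1 H`; `P'` = `cutH 1 H` except that it is `-2` at the even times strictly between `t0` and `t1`.
`P' u + Q' u < 0` for all `u` between `t0` and `t1`. If `(P', Q')` were the image of `(P, Q)`, then by `sw_char` (`t = t1`,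
`t' = t0`) the time `t1` would be exchanged: `Q' t1 = 0 - P t1`, so `P t1 = 1 > H t1`.
-/

set_option autoImplicit false

namespace Pool.Agent.DK73

theorem lt_two {L : ℕ} {h : ℤ} {H : ℕ → ℤ} (hH : IsPath L H) (hh : 2 ≤ h)
    (hm : ∀ t, t ≤ L → H t ≤ h) {t0 : ℕ} (ht0 : t0 ≤ L) (h0 : H t0 = h) :
    PF L H < PF L (cutH h H) :=
  lt_two58 hH hh hm ht0 h0

theorem lt_one {L : ℕ} {H : ℕ → ℤ} (hH : IsPath L H)
    (hm : ∀ t, t ≤ L → H t ≤ 1) (hm' : ∀ t, t ≤ L → -1 ≤ H t) {t0 t1 : ℕ} (ht0 : t0 ≤ L) (ht1 : t1 ≤ L)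
    (h0 : H t0 = 1) (h1 : H t1 = -1) : PF L H < PF L (cutH 1 H) :=
  StrictS6.lt_one hH hm hm' ht0 ht1 h0 h1

end Pool.Agent.DK73
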