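import Pool.Agent.DK73.MaxiS30
import Pool.Agent.DK73.Strict
import Pool.Agent.DK73.Paths

/-!
# The alternating paths are the only maximisers

Strong induction on `∑ t ∈ range (L + 1), |H t|`. If some height is `≥ 2`: let `h` be the maximal height; `cutH h H` has
a smaller sum (`|h - 2| < h`), `lt_two` and the induction hypothesis give `PF L H < PF L (altH L)`. If some height is
`≤ -2`: the same for `- H` (`PF_neg`). Otherwise all heights lie in `[-1, 1]`: they are `0` at even times. If all odd
heights are `-1`, then `H = altH L`; if all are `1`, then `H = - altH L` (`PF_neg`); otherwise `lt_one`, and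
`cutH 1 H = altH L`.
-/

set_option autoImplicit false

namespace Pool.Agent.DK73

theorem PF_max (L : ℕ) (H : ℕ → ℤ) (hH : IsPath L H) :
    PF L H ≤ PF L (altH L) ∧
      (PF L H = PF L (altH L) ↔ H = altH L ∨ H = fun t => - altH L t) :=
  PF_maxS30 L H hH

end Pool.Agent.DK73
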