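import Pool.Agent.DK73.MainS78
import Pool.Agent.DK73.Maxi
import Pool.Agent.DK73.Count
import Pool.Agent.DK73.Perm
import Pool.Agent.DK73.MainS91
import Pool.Agent.DK73.MainAS84

/-!
# The strings of the class with the most folded states

`epsW s` = the word of the directions of the creases `c_1, c_2, c_4, c_6, ...`. `num_eps`: `numStates_dir`, `card_gen`.
`eps_inj`: `epsW s` and `InK` determine `s`. `eps_vvmm`: its heights are `- altH`; `eps_not`: `epsW` of the complement of
the string is the complement. `vvmm_inK`, `not_inK`: clear. `main`: `cnt_PF`, `PF_max`, `ht_inj`, `numStates_vvmm`.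
-/

set_option autoImplicit false

namespace Pool.Agent.DK73

open Pool.Agent.Results.MP_15ecc6_co.DoubleCatalan

open Classical in
noncomputable def epsW {n : ℕ} (s : Fin n → Bool) : List Bool :=
  decide (dirK s 0) :: wd (dirK s) 1 (n / 2)

theorem len_eps {n : ℕ} (s : Fin n → Bool) : (epsW s).length = n / 2 + 1 :=
  len_eps84 s

theorem num_eps {n : ℕ} (hn : 1 ≤ n) (s : Fin n → Bool) (hs : InK s) :
    numStates s = PF (n / 2 + 1) (ht (epsW s)) :=
  num_eps84 hn s hs

theorem eps_inj {n : ℕ} (hn : 1 ≤ n) {s s' : Fin n → Bool} (hs : InK s) (hs' : InK s')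
    (h : epsW s = epsW s') : s = s' :=
  eps_inj84 hn hs hs' h

theorem eps_vvmm (n : ℕ) (hn : 1 ≤ n) : ht (epsW (vvmm n)) = fun t => - altH (n / 2 + 1) t :=
  MainS91.eps_vvmm n hn

theorem eps_not (n : ℕ) (hn : 1 ≤ n) :
    ht (epsW (fun i : Fin n => !vvmm n i)) = altH (n / 2 + 1) :=
  MainS91.eps_not n hn

theorem vvmm_inK (n : ℕ) : InK (vvmm n) :=
  vvmm_inK84 n

theorem not_inK (n : ℕ) : InK (fun i : Fin n => !vvmm n i) :=
  not_inK84 n

theorem main (n : ℕ) (hn : 1 ≤ n) :
    (∀ s : Fin n → Bool, InK s → numStates s ≤ catalan ((n/2+1)/2 + 1) * catalan (n/2/2 + 1)) ∧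
    {s : Fin n → Bool | InK s ∧ numStates s = catalan ((n/2+1)/2 + 1) * catalan (n/2/2 + 1)} =
      {vvmm n, fun i => !vvmm n i} :=
  MainS78.main_of hn epsW (fun s => len_eps s) (fun s hs => num_eps hn s hs) (fun _ _ hs hs' h => eps_inj hn hs hs' h)
    (eps_vvmm n hn) (eps_not n hn) (vvmm_inK n) (not_inK n)

end Pool.Agent.DK73
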