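import Pool.Agent.DK73.Maxi
import Pool.Agent.DK73.Paths

/-!
# The strings of the class with the most folded states: assembly
-/

set_option autoImplicit false

namespace Pool.Agent.DK73.MainS78

open Pool.Agent.Results.MP_15ecc6_co.DoubleCatalan Pool.Agent.DK73

theorem main_of {n : ℕ} (hn : 1 ≤ n) (eps : (Fin n → Bool) → List Bool)
    (len_eps : ∀ s, (eps s).length = n / 2 + 1)
    (num_eps : ∀ s, InK s → numStates s = PF (n / 2 + 1) (ht (eps s)))
    (eps_inj : ∀ s s', InK s → InK s' → eps s = eps s' → s = s')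
    (eps_vvmm : ht (eps (vvmm n)) = fun t => - altH (n / 2 + 1) t)
    (eps_not : ht (eps (fun i : Fin n => !vvmm n i)) = altH (n / 2 + 1))
    (vvmm_inK : InK (vvmm n)) (not_inK : InK (fun i : Fin n => !vvmm n i)) :
    (∀ s : Fin n → Bool, InK s → numStates s ≤ catalan ((n/2+1)/2 + 1) * catalan (n/2/2 + 1)) ∧
    {s : Fin n → Bool | InK s ∧ numStates s = catalan ((n/2+1)/2 + 1) * catalan (n/2/2 + 1)} =
      {vvmm n, fun i => !vvmm n i} := by
  have hM : PF (n / 2 + 1) (altH (n / 2 + 1)) =
      catalan ((n/2+1)/2 + 1) * catalan (n/2/2 + 1) := by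
    rw [← numStates_vvmm n hn, num_eps _ vvmm_inK, eps_vvmm, PF_neg]
  have hpath : ∀ s, IsPath (n / 2 + 1) (ht (eps s)) := by
    intro s
    have := ht_path (eps s)
    rwa [len_eps] at this
  refine ⟨?_, ?_⟩
  · intro s hs
    rw [← hM, num_eps s hs]
    exact (PF_max _ _ (hpath s)).1
  · ext s
    constructor
    · rintro ⟨hs, he⟩
      rw [← hM, num_eps s hs] at he
      rcases ((PF_max _ _ (hpath s)).2).1 he with h | h
      · right
        refine eps_inj _ _ hs not_inK (ht_inj (by rw [len_eps, len_eps]) ?_)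
        rw [h, eps_not]
      · left
        refine eps_inj _ _ hs vvmm_inK (ht_inj (by rw [len_eps, len_eps]) ?_)
        rw [h, eps_vvmm]
    · rintro (h | h)
      · subst h
        exact ⟨vvmm_inK, numStates_vvmm n hn⟩
      · have h' : s = fun i => !vvmm n i := h
        subst h'
        refine ⟨not_inK, ?_⟩
        rw [num_eps _ not_inK, eps_not, hM]

end Pool.Agent.DK73.MainS78
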