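import Pool.Agent.DK73.Strict
import Pool.Agent.DK73.Paths

/-!
# DK73/MaxiS30: the alternating paths are the only maximisers

See DK73/Maxi.
-/

set_option autoImplicit false

namespace Pool.Agent.DK73

theorem maxi30_par {L : ℕ} {H : ℕ → ℤ} (hH : IsPath L H) : ∀ t, t ≤ L → (H t + t) % 2 = 0 := by
  intro t
  induction t with
  | zero =>
    intro _
    rw [hH.zero]
    rfl
  | succ t ih =>
    intro ht
    have h1 := ih (by omega)
    push_cast
    rcases hH.step t (by omega) with h2 | h2 <;> rw [h2] <;> omega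

theorem maxi30_neg {L : ℕ} {H : ℕ → ℤ} (hH : IsPath L H) : IsPath L (fun t => - H t) := by
  refine ⟨by simp [hH.zero], fun t ht => ?_, fun t ht => ?_⟩
  · rcases hH.step t ht with h | h
    · right
      show - H (t + 1) = - H t - 1
      rw [h]; ring
    · left
      show - H (t + 1) = - H t + 1
      rw [h]; ring
  · show - H t = - H L
    rw [hH.const t ht]

/-- the sum of the absolute heights -/
def maxi30_sum (L : ℕ) (H : ℕ → ℤ) : ℕ := ∑ t ∈ Finset.range (L + 1), (H t).natAbs

theorem maxi30_sum_cut {L : ℕ} {H : ℕ → ℤ} {h : ℤ} (hh : 2 ≤ h) {t0 : ℕ} (ht0 : t0 ≤ L)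
    (h0 : H t0 = h) : maxi30_sum L (cutH h H) < maxi30_sum L H := by
  unfold maxi30_sum
  refine Finset.sum_lt_sum (fun t _ => ?_) ⟨t0, Finset.mem_range.2 (by omega), ?_⟩
  · unfold cutH
    split_ifs with h1
    · rw [h1]; omega
    · exact le_rfl
  · unfold cutH
    rw [if_pos h0, h0]
    omega

theorem maxi30_sum_neg (L : ℕ) (H : ℕ → ℤ) : maxi30_sum L (fun t => - H t) = maxi30_sum L H := by
  unfold maxi30_sum
  refine Finset.sum_congr rfl fun t _ => ?_
  exact Int.natAbs_neg _

theorem maxi30_exists_max (L : ℕ) (H : ℕ → ℤ) : ∃ t0 ≤ L, ∀ t, t ≤ L → H t ≤ H t0 := by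
  obtain ⟨t0, h1, h2⟩ := Finset.exists_max_image (Finset.range (L + 1)) H ⟨0, by simp⟩
  refine ⟨t0, by rw [Finset.mem_range] at h1; omega, fun t ht => h2 t ?_⟩
  rw [Finset.mem_range]
  omega

theorem maxi30_small {L : ℕ} {H : ℕ → ℤ} (hH : IsPath L H) (h1 : ∀ t, t ≤ L → H t ≤ 1)
    (h2 : ∀ t, t ≤ L → -1 ≤ H t) :
    H = altH L ∨ (H = fun t => - altH L t) ∨ PF L H < PF L (altH L) := by
  have hpar := maxi30_par hH
  have heven : ∀ t, t ≤ L → t % 2 = 0 → H t = 0 := by
    intro t ht he
    have a := hpar t ht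
    have b := h1 t ht
    have c := h2 t ht
    omega
  have hodd : ∀ t, t ≤ L → t % 2 = 1 → H t = 1 ∨ H t = -1 := by
    intro t ht he
    have a := hpar t ht
    have b := h1 t ht
    have c := h2 t ht
    omega
  by_cases hp : ∃ t, t ≤ L ∧ H t = 1
  · by_cases hn : ∃ t, t ≤ L ∧ H t = -1
    · obtain ⟨t0, ht0, e0⟩ := hp
      obtain ⟨t1, ht1, e1⟩ := hn
      right; right
      have h3 := lt_one hH h1 h2 ht0 ht1 e0 e1
      have h4 : cutH 1 H = altH L := by
        funext t
        have key : ∀ s, s ≤ L → cutH 1 H s = if s % 2 = 0 then 0 else -1 := by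
          intro s hs
          unfold cutH
          rcases Nat.mod_two_eq_zero_or_one s with h | h
          · rw [heven s hs h, if_neg (by norm_num), if_pos h]
          · rw [if_neg (by omega : ¬ s % 2 = 0)]
            rcases hodd s hs h with h5 | h5
            · rw [if_pos h5]; norm_num
            · rw [if_neg (by rw [h5]; norm_num), h5]
        unfold altH
        rcases le_or_gt t L with h | h
        · rw [min_eq_left h]
          exact key t h
        · rw [min_eq_right h.le, ← key L le_rfl]
          unfold cutH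
          rw [hH.const t h.le]
      rw [h4] at h3
      exact h3
    · right; left
      have h3 : ∀ s, s ≤ L → H s = - (if s % 2 = 0 then 0 else -1 : ℤ) := by
        intro s hs
        rcases Nat.mod_two_eq_zero_or_one s with h | h
        · rw [heven s hs h, if_pos h]; rfl
        · rw [if_neg (by omega : ¬ s % 2 = 0)]
          rcases hodd s hs h with h5 | h5
          · rw [h5]; norm_num
          · exact absurd ⟨s, hs, h5⟩ hn
      funext t
      unfold altH
      rcases le_or_gt t L with h | h
      · rw [min_eq_left h]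
        exact h3 t h
      · rw [min_eq_right h.le, ← h3 L le_rfl]
        exact hH.const t h.le
  · left
    have h3 : ∀ s, s ≤ L → H s = (if s % 2 = 0 then 0 else -1 : ℤ) := by
      intro s hs
      rcases Nat.mod_two_eq_zero_or_one s with h | h
      · rw [heven s hs h, if_pos h]
      · rw [if_neg (by omega : ¬ s % 2 = 0)]
        rcases hodd s hs h with h5 | h5
        · exact absurd ⟨s, hs, h5⟩ hp
        · exact h5
    funext t
    unfold altH
    rcases le_or_gt t L with h | h
    · rw [min_eq_left h]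
      exact h3 t h
    · rw [min_eq_right h.le, ← h3 L le_rfl]
      exact hH.const t h.le

theorem maxi30_main (L : ℕ) : ∀ (m : ℕ) (H : ℕ → ℤ), maxi30_sum L H = m → IsPath L H →
    H = altH L ∨ (H = fun t => - altH L t) ∨ PF L H < PF L (altH L) := by
  intro m
  induction m using Nat.strong_induction_on with
  | _ m ih =>
    intro H hm hH
    have step : ∀ H' : ℕ → ℤ, IsPath L H' → maxi30_sum L H' = m → (∃ t, t ≤ L ∧ 2 ≤ H' t) →
        PF L H' < PF L (altH L) := by
      intro H' hH' hs ⟨t2, ht2, h2⟩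
      obtain ⟨t0, ht0, hmax⟩ := maxi30_exists_max L H'
      have hh : 2 ≤ H' t0 := h2.trans (hmax t2 ht2)
      have h3 := lt_two hH' hh hmax ht0 rfl
      have h4 := cut_path hH' (by omega : 1 ≤ H' t0) hmax
      have h5 := maxi30_sum_cut (L := L) (H := H') hh ht0 rfl
      rw [hs] at h5
      rcases ih _ h5 (cutH (H' t0) H') rfl h4 with h6 | h6 | h6
      · rw [h6] at h3
        exact h3
      · rw [h6, PF_neg] at h3
        exact h3
      · exact h3.trans h6
    by_cases hA : ∃ t, t ≤ L ∧ 2 ≤ H t
    · exact Or.inr (Or.inr (step H hH hm hA))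
    · by_cases hB : ∃ t, t ≤ L ∧ H t ≤ -2
      · obtain ⟨t, ht, h2⟩ := hB
        have h3 := step (fun t => - H t) (maxi30_neg hH) (by rw [maxi30_sum_neg, hm])
          ⟨t, ht, by show 2 ≤ - H t; omega⟩
        rw [PF_neg] at h3
        exact Or.inr (Or.inr h3)
      · refine maxi30_small hH (fun t ht => ?_) (fun t ht => ?_)
        · by_contra hc
          exact hA ⟨t, ht, by omega⟩
        · by_contra hc
          exact hB ⟨t, ht, by omega⟩

theorem PF_maxS30 (L : ℕ) (H : ℕ → ℤ) (hH : IsPath L H) :
    PF L H ≤ PF L (altH L) ∧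
      (PF L H = PF L (altH L) ↔ H = altH L ∨ H = fun t => - altH L t) := by
  rcases maxi30_main L _ H rfl hH with h | h | h
  · rw [h]
    exact ⟨le_rfl, fun _ => Or.inl rfl, fun _ => rfl⟩
  · rw [h]
    refine ⟨(PF_neg L (altH L)).le, fun _ => Or.inr rfl, fun _ => PF_neg L (altH L)⟩
  · refine ⟨h.le, fun h1 => absurd h1 h.ne, ?_⟩
    rintro (h1 | h1)
    · rw [h1]
    · rw [h1]
      exact PF_neg L (altH L)

end Pool.Agent.DK73
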