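import Pool.Agent.DK73.Strict
import Pool.Agent.DK73.Paths

/-!
# DK73, module Maxi: the alternating paths are the only maximisers (helper98)
-/

set_option autoImplicit false

namespace Pool.Agent.DK73.MaxiS98

open Pool.Agent.DK73

theorem neg_path98 {L : ℕ} {H : ℕ → ℤ} (hH : IsPath L H) : IsPath L (fun t => - H t) := by
  refine ⟨?_, ?_, ?_⟩
  · show - H 0 = 0
    rw [hH.zero, neg_zero]
  · intro t ht
    show - H (t + 1) = - H t + 1 ∨ - H (t + 1) = - H t - 1
    rcases hH.step t ht with h1 | h1 <;> [right; left] <;> omega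
  · intro t ht
    show - H t = - H L
    rw [hH.const t ht]

theorem par98 {L : ℕ} {H : ℕ → ℤ} (hH : IsPath L H) : ∀ t : ℕ, t ≤ L → (H t + t) % 2 = 0 := by
  intro t
  induction t with
  | zero => intro _; rw [hH.zero]; rfl
  | succ t ih =>
    intro ht
    have h1 := ih (by omega)
    have h2 := hH.step t (by omega)
    push_cast
    omega

/-- the statement which is proved by induction -/
def Good98 (L : ℕ) (H : ℕ → ℤ) : Prop :=
  (H = altH L ∨ H = fun t => - altH L t) ∨ PF L H < PF L (altH L)

theorem good_le98 {L : ℕ} {H : ℕ → ℤ} (h : Good98 L H) : PF L H ≤ PF L (altH L) := by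
  rcases h with (h | h) | h
  · rw [h]
  · rw [h, PF_neg]
  · exact h.le

theorem good_neg98 {L : ℕ} {H : ℕ → ℤ} (h : Good98 L (fun t => - H t)) : Good98 L H := by
  rcases h with (h | h) | h
  · left; right
    funext t
    have h1 : - H t = altH L t := congrFun h t
    show H t = - altH L t
    omega
  · left; left
    funext t
    have h1 : - H t = - altH L t := congrFun h t
    omega
  · right
    rwa [PF_neg] at h

def sz98 (L : ℕ) (H : ℕ → ℤ) : ℕ := ∑ t ∈ Finset.range (L + 1), (H t).natAbs

theorem step_up98 {L : ℕ} {H : ℕ → ℤ} (hH : IsPath L H)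
    (ih : ∀ H' : ℕ → ℤ, IsPath L H' → sz98 L H' < sz98 L H → Good98 L H')
    {t1 : ℕ} (ht1 : t1 ≤ L) (h2 : 2 ≤ H t1) : Good98 L H := by
  obtain ⟨t0, ht0, hmax⟩ := Finset.exists_max_image (Finset.range (L + 1)) H
    ⟨0, Finset.mem_range.2 (Nat.succ_pos L)⟩
  have hm : ∀ t, t ≤ L → H t ≤ H t0 := fun t ht => hmax t (Finset.mem_range.2 (by omega))
  have ht0' : t0 ≤ L := by have := Finset.mem_range.1 ht0; omega
  have hh : 2 ≤ H t0 := h2.trans (hm t1 ht1)
  have hc : IsPath L (cutH (H t0) H) := cut_path hH (by omega) hm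
  have hlt : sz98 L (cutH (H t0) H) < sz98 L H := by
    refine Finset.sum_lt_sum (fun t ht => ?_) ⟨t0, ht0, ?_⟩
    · unfold cutH
      split_ifs with h
      · rw [h]; omega
      · exact le_rfl
    · unfold cutH
      rw [if_pos rfl]
      omega
  exact Or.inr (lt_of_lt_of_le (lt_two hH hh hm ht0' rfl) (good_le98 (ih _ hc hlt)))

theorem small98 {L : ℕ} {H : ℕ → ℤ} (hH : IsPath L H) (hu : ∀ t, t ≤ L → H t ≤ 1)
    (hl : ∀ t, t ≤ L → -1 ≤ H t) : Good98 L H := by
  have hconst : ∀ t, H t = H (min t L) := by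
    intro t
    rcases le_total t L with h | h
    · rw [min_eq_left h]
    · rw [min_eq_right h, hH.const t h]
  have hpar := par98 hH
  by_cases h1 : ∃ t0, t0 ≤ L ∧ H t0 = 1
  · obtain ⟨t0, ht0, h0⟩ := h1
    by_cases h2 : ∃ t1, t1 ≤ L ∧ H t1 = -1
    · obtain ⟨t1, ht1, h3⟩ := h2
      right
      have h4 := lt_one hH hu hl ht0 ht1 h0 h3
      have h5 : cutH 1 H = altH L := by
        funext t
        unfold cutH altH
        rw [hconst t]
        have e1 := hpar (min t L) (min_le_right _ _)
        have e2 := hu (min t L) (min_le_right _ _)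
        have e3 := hl (min t L) (min_le_right _ _)
        split_ifs with c1 c2 c2 <;> omega
      rwa [h5] at h4
    · left; right
      funext t
      unfold altH
      rw [hconst t]
      have e1 := hpar (min t L) (min_le_right _ _)
      have e2 := hu (min t L) (min_le_right _ _)
      have e3 := hl (min t L) (min_le_right _ _)
      have e4 : H (min t L) ≠ -1 := fun h => h2 ⟨_, min_le_right _ _, h⟩
      split_ifs with c1 <;> omega
  · left; left
    funext t
    unfold altH
    rw [hconst t]
    have e1 := hpar (min t L) (min_le_right _ _)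
    have e2 := hu (min t L) (min_le_right _ _)
    have e3 := hl (min t L) (min_le_right _ _)
    have e4 : H (min t L) ≠ 1 := fun h => h1 ⟨_, min_le_right _ _, h⟩
    split_ifs with c1 <;> omega

theorem good98 (L : ℕ) : ∀ (k : ℕ) (H : ℕ → ℤ), IsPath L H → sz98 L H = k → Good98 L H := by
  intro k
  induction k using Nat.strong_induction_on with
  | _ k ih =>
    intro H hH hk
    have ih' : ∀ H' : ℕ → ℤ, IsPath L H' → sz98 L H' < sz98 L H → Good98 L H' :=
      fun H' h1 h2 => ih _ (hk ▸ h2) H' h1 rfl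
    by_cases h1 : ∃ t, t ≤ L ∧ 2 ≤ H t
    · obtain ⟨t, ht, h2⟩ := h1
      exact step_up98 hH ih' ht h2
    by_cases h2 : ∃ t, t ≤ L ∧ H t ≤ -2
    · obtain ⟨t, ht, h3⟩ := h2
      have hs : sz98 L (fun t => - H t) = sz98 L H := by
        unfold sz98
        exact Finset.sum_congr rfl fun t _ => Int.natAbs_neg _
      refine good_neg98 (step_up98 (neg_path98 hH) (fun H' e1 e2 => ih' H' e1 (hs ▸ e2)) ht ?_)
      show 2 ≤ - H t
      omega
    · refine small98 hH (fun t ht => ?_) (fun t ht => ?_)
      · by_contra h3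
        exact h1 ⟨t, ht, by omega⟩
      · by_contra h3
        exact h2 ⟨t, ht, by omega⟩

theorem PF_max (L : ℕ) (H : ℕ → ℤ) (hH : IsPath L H) :
    PF L H ≤ PF L (altH L) ∧
      (PF L H = PF L (altH L) ↔ H = altH L ∨ H = fun t => - altH L t) := by
  have hg := good98 L _ H hH rfl
  refine ⟨good_le98 hg, ⟨fun h => ?_, fun h => ?_⟩⟩
  · rcases hg with h1 | h1
    · exact h1
    · exact absurd h h1.ne
  · rcases h with h | h
    · rw [h]
    · rw [h, PF_neg]

end Pool.Agent.DK73.MaxiS98
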