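import Pool.Agent.DK73.Defs

/-!
# From permutations to height functions (proof of `numStates_dir` for DK73/Perm)
-/

set_option autoImplicit false

namespace Pool.Agent.DK73.PermS80

open Pool.Agent.Results.MP_15ecc6_co.DoubleCatalan Pool.Agent.DK73

theorem hts_st {n : ℕ} {s : Fin n → Bool} {σ : Equiv.Perm (Fin (n+1))} (h1 : IsFoldedState σ)
    (h2 : Consistent s σ) : St n (dirK s) (hts σ) := by
  have hcs : ∀ i : ℕ, ∀ hi : i < n, ((σ (⟨i, hi⟩ : Fin n).castSucc : Fin (n+1)) : ℕ) = hts σ i := by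
    intro i hi
    rw [hts_val σ i (by omega)]
    rfl
  have hsc : ∀ i : ℕ, ∀ hi : i < n, ((σ (⟨i, hi⟩ : Fin n).succ : Fin (n+1)) : ℕ) = hts σ (i+1) := by
    intro i hi
    rw [hts_val σ (i+1) (by omega)]
    rfl
  have hinj : ∀ x y, x ≤ n → y ≤ n → hts σ x = hts σ y → x = y := by
    intro x y hx hy hxy
    rw [hts_val σ x (by omega), hts_val σ y (by omega)] at hxy
    have := σ.injective (Fin.ext hxy)
    exact congrArg Fin.val this
  refine ⟨?_, ?_, hinj, ?_, ?_⟩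
  · intro x hx
    unfold hts; rw [dif_neg (by omega)]
  · intro x hx
    rw [hts_val σ x (by omega)]
    have := (σ ⟨x, by omega⟩ : Fin (n+1)).isLt
    omega
  · intro i j hij hj hp
    have := h1 ⟨i, by omega⟩ ⟨j, hj⟩ (fun hq => by
      have := congrArg Fin.val hq
      simp only at this
      omega) hp
    rw [hcs, hsc, hcs, hsc] at this
    exact this
  · intro i hi
    have h3 := h2 ⟨i, hi⟩
    unfold IsValley at h3
    simp only [Fin.lt_def] at h3
    rw [hcs, hsc] at h3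
    have h4 : hts σ i ≠ hts σ (i+1) := fun hq => by
      have := hinj i (i+1) (by omega) (by omega) hq
      omega
    have h5 : dirK s i ↔ (s ⟨i, hi⟩ = true ↔ i % 2 = 0) :=
      ⟨fun h => h.choose_spec, fun h => ⟨hi, h⟩⟩
    rw [h5, h3]
    omega

theorem perm_of_st {n : ℕ} {s : Fin n → Bool} {g : ℕ → ℕ} (hg : St n (dirK s) g) :
    ∃ σ : Equiv.Perm (Fin (n+1)), IsFoldedState σ ∧ Consistent s σ ∧ hts σ = g := by
  let f : Fin (n+1) → Fin (n+1) := fun i => ⟨g i, by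
    have := hg.le i (by omega)
    omega⟩
  have hf : Function.Injective f := by
    intro a b hab
    have h1 : g a = g b := congrArg Fin.val hab
    exact Fin.ext (hg.inj a b (by omega) (by omega) h1)
  let σ : Equiv.Perm (Fin (n+1)) := Equiv.ofBijective f (Finite.injective_iff_bijective.1 hf)
  have hσ : ∀ i : Fin (n+1), ((σ i : Fin (n+1)) : ℕ) = g i := fun i => rfl
  refine ⟨σ, ?_, ?_, ?_⟩
  · intro i j hij hp
    rw [hσ, hσ, hσ, hσ]
    show ¬ Interleave (g (i:ℕ)) (g ((i:ℕ)+1)) (g (j:ℕ)) (g ((j:ℕ)+1))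
    have hne : (i : ℕ) ≠ (j : ℕ) := fun hq => hij (Fin.ext hq)
    rcases Nat.lt_or_ge (i : ℕ) (j : ℕ) with h1 | h1
    · exact hg.nc i j h1 j.isLt hp
    · intro hI
      exact hg.nc j i (by omega) i.isLt hp.symm (interleave_comm.1 hI)
  · intro i
    unfold IsValley
    simp only [Fin.lt_def]
    rw [hσ, hσ]
    show s i = true ↔ (((i:ℕ) % 2 = 0 ∧ g (i:ℕ) < g ((i:ℕ)+1)) ∨
      ((i:ℕ) % 2 = 1 ∧ g ((i:ℕ)+1) < g (i:ℕ)))
    have h1 := hg.dir i i.isLt
    have h2 : g (i:ℕ) ≠ g ((i:ℕ)+1) := fun hq => by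
      have := hg.inj i (i+1) (by omega) (by omega) hq
      omega
    have h5 : dirK s i ↔ (s i = true ↔ (i : ℕ) % 2 = 0) :=
      ⟨fun h => h.choose_spec, fun h => ⟨i.isLt, h⟩⟩
    rw [h5] at h1
    obtain ⟨b, hb⟩ : ∃ b : ℕ, (s i = true ↔ b = 1) := by
      by_cases hs : s i = true
      · exact ⟨1, ⟨fun _ => rfl, fun _ => hs⟩⟩
      · exact ⟨0, ⟨fun h => absurd h hs, fun h => absurd h (by omega)⟩⟩
    rw [hb] at h1 ⊢
    omega
  · funext x
    by_cases hx : x < n + 1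
    · rw [hts_val σ x hx]
      rfl
    · unfold hts
      rw [dif_neg hx, hg.zero x (by omega)]

theorem numStates_dir {n : ℕ} (s : Fin n → Bool) :
    numStates s = Set.ncard {g : ℕ → ℕ | St n (dirK s) g} := by
  unfold numStates
  rw [← Nat.card_coe_set_eq]
  apply Nat.card_congr
  refine Equiv.ofBijective (fun σ => ⟨hts σ.1, hts_st σ.2.1 σ.2.2⟩) ⟨?_, ?_⟩
  · intro σ τ h
    have : hts σ.1 = hts τ.1 := congrArg Subtype.val h
    exact Subtype.ext (hts_injective this)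
  · rintro ⟨g, hg⟩
    obtain ⟨σ, h1, h2, h3⟩ := perm_of_st hg
    exact ⟨⟨σ, h1, h2⟩, Subtype.ext h3⟩

end Pool.Agent.DK73.PermS80
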