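import Pool.Agent.DK73.SwapMem

/-!
# The exchanged times can be read off from the result
-/

set_option autoImplicit false

namespace Pool.Agent.DK73

theorem sPQ_of_sw83 {L : ℕ} {h : ℤ} {P Q : ℕ → ℤ} {u : ℕ} (hu : u ≤ L) (hs : Sw L h P Q u) :
    sP L h P Q u = 2 * h - 2 - Q u ∧ sQ L h P Q u = 2 * h - 2 - P u := by
  have m : min u L = u := min_eq_left hu
  unfold sP sQ
  rw [m, if_pos hs, if_pos hs]
  exact ⟨rfl, rfl⟩

theorem sPQ_of_not83 {L : ℕ} {h : ℤ} {P Q : ℕ → ℤ} {u : ℕ} (hu : u ≤ L) (hs : ¬ Sw L h P Q u) :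
    sP L h P Q u = P u ∧ sQ L h P Q u = Q u := by
  have m : min u L = u := min_eq_left hu
  unfold sP sQ
  rw [m, if_neg hs, if_neg hs]
  exact ⟨rfl, rfl⟩

theorem sw_char83 {L : ℕ} {h : ℤ} {H P Q : ℕ → ℤ}
    (hm : ∀ t, t ≤ L → H t ≤ h) (hP : P ∈ Bel L H) (hQ : Q ∈ Abv L H) {t : ℕ} (ht : t ≤ L) :
    Sw L h P Q t ↔ ∃ t', t' ≤ L ∧ H t' = h ∧ sQ L h P Q t' = h - 2 ∧
      ∀ u, min t t' ≤ u → u ≤ max t t' → sP L h P Q u + sQ L h P Q u < 2 * h - 2 := by
  obtain ⟨hP1, hP2, hP3⟩ := hP
  obtain ⟨hQ1, hQ2, hQ3⟩ := hQ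
  constructor
  · rintro ⟨t', h1, h2, h3⟩
    have hH : H t' = h := le_antisymm (hm t' h1) (h2 ▸ hP3 t' h1)
    have hsw : ∀ u, min t t' ≤ u → u ≤ max t t' → Sw L h P Q u := by
      intro u hu1 hu2
      refine ⟨t', h1, h2, ?_⟩
      intro v hv1 hv2
      apply h3 v <;> omega
    refine ⟨t', h1, hH, ?_, ?_⟩
    · have := (sPQ_of_sw83 h1 (hsw t' (by omega) (by omega))).2
      omega
    · intro u hu1 hu2
      have huL : u ≤ L := by omega
      obtain ⟨e1, e2⟩ := sPQ_of_sw83 huL (hsw u hu1 hu2)
      have := h3 u hu1 hu2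
      omega
  · rintro ⟨t', h1, h2, h3, h4⟩
    have h0 : Sw L h P Q t' := by
      by_contra hn
      have e := (sPQ_of_not83 h1 hn).2
      have := hQ3 t' h1
      omega
    have down : ∀ k, k ≤ t' → t ≤ t' - k → Sw L h P Q (t' - k) := by
      intro k
      induction k with
      | zero => intro _ _; simpa using h0
      | succ k ih =>
        intro hk1 hk2
        have ih' := ih (by omega) (by omega)
        by_contra hn
        have e0 : t' - k = (t' - (k + 1)) + 1 := by omega
        rw [e0] at ih'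
        have hlt : t' - (k + 1) < L := by omega
        have e := sw_step' hP1 hQ1 hlt hn ih'
        obtain ⟨e1, e2⟩ := sPQ_of_not83 hlt.le hn
        have := h4 (t' - (k + 1)) (by omega) (by omega)
        omega
    have up : ∀ k, t' + k ≤ t → Sw L h P Q (t' + k) := by
      intro k
      induction k with
      | zero => intro _; simpa using h0
      | succ k ih =>
        intro hk1
        have ih' := ih (by omega)
        by_contra hn
        have hlt : t' + k < L := by omega
        have e := sw_step hP1 hQ1 hlt ih' hn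
        obtain ⟨e1, e2⟩ := sPQ_of_not83 (u := t' + (k + 1)) (by omega) hn
        have := h4 (t' + (k + 1)) (by omega) (by omega)
        have e3 : t' + k + 1 = t' + (k + 1) := by omega
        rw [e3] at e
        omega
    rcases Nat.le_total t t' with hle | hle
    · have := down (t' - t) (by omega) (by omega)
      have e : t' - (t' - t) = t := by omega
      rwa [e] at this
    · have := up (t - t') (by omega)
      have e : t' + (t - t') = t := by omega
      rwa [e] at this

end Pool.Agent.DK73
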