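import Pool.Agent.DK73.SwChar83
import Pool.Agent.DK73.Paths

/-!
# The exchange is injective
-/

set_option autoImplicit false

namespace Pool.Agent.DK73

theorem path_ext83 {L : ℕ} {P P' : ℕ → ℤ} (hP : IsPath L P) (hP' : IsPath L P')
    (h : ∀ t, t ≤ L → P t = P' t) : P = P' := by
  funext t
  rcases Nat.le_total t L with ht | ht
  · exact h t ht
  · rw [hP.const t ht, hP'.const t ht, h L le_rfl]

theorem swap_inj83 {L : ℕ} {h : ℤ} {H P Q P' Q' : ℕ → ℤ}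
    (hm : ∀ t, t ≤ L → H t ≤ h) (hP : P ∈ Bel L H) (hQ : Q ∈ Abv L H) (hP' : P' ∈ Bel L H)
    (hQ' : Q' ∈ Abv L H) (h1 : sP L h P Q = sP L h P' Q') (h2 : sQ L h P Q = sQ L h P' Q') :
    P = P' ∧ Q = Q' := by
  have key : ∀ t, t ≤ L → P t = P' t ∧ Q t = Q' t := by
    intro t ht
    have hc : Sw L h P Q t ↔ Sw L h P' Q' t := by
      rw [sw_char83 hm hP hQ ht, sw_char83 hm hP' hQ' ht, h1, h2]
    have e1 := congrFun h1 t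
    have e2 := congrFun h2 t
    by_cases hs : Sw L h P Q t
    · obtain ⟨a1, a2⟩ := sPQ_of_sw83 ht hs
      obtain ⟨b1, b2⟩ := sPQ_of_sw83 ht (hc.1 hs)
      omega
    · obtain ⟨a1, a2⟩ := sPQ_of_not83 ht hs
      obtain ⟨b1, b2⟩ := sPQ_of_not83 ht (fun hh => hs (hc.2 hh))
      omega
  exact ⟨path_ext83 hP.1 hP'.1 fun t ht => (key t ht).1,
    path_ext83 hQ.1 hQ'.1 fun t ht => (key t ht).2⟩

theorem PF_prod83 (L : ℕ) (H : ℕ → ℤ) : PF L H = (Bel L H ×ˢ Abv L H).ncard := by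
  rw [PF, Set.ncard_prod]

theorem sPQ_mapsTo83 {L : ℕ} {h : ℤ} {H : ℕ → ℤ} (hH : IsPath L H) (hh : 1 ≤ h)
    (hm : ∀ t, t ≤ L → H t ≤ h) : ∀ p ∈ Bel L H ×ˢ Abv L H,
    (sP L h p.1 p.2, sQ L h p.1 p.2) ∈ Bel L (cutH h H) ×ˢ Abv L (cutH h H) := by
  rintro ⟨P, Q⟩ ⟨hP, hQ⟩
  exact ⟨sP_mem hH hh hm hP hQ, sQ_mem hH hh hm hP hQ⟩

theorem sPQ_injOn83 {L : ℕ} {h : ℤ} {H : ℕ → ℤ}
    (hm : ∀ t, t ≤ L → H t ≤ h) : Set.InjOn (fun p : (ℕ → ℤ) × (ℕ → ℤ) =>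
    (sP L h p.1 p.2, sQ L h p.1 p.2)) (Bel L H ×ˢ Abv L H) := by
  rintro ⟨P, Q⟩ ⟨hP, hQ⟩ ⟨P', Q'⟩ ⟨hP', hQ'⟩ he
  have he' := Prod.mk.inj he
  obtain ⟨a, b⟩ := swap_inj83 hm hP hQ hP' hQ' he'.1 he'.2
  exact Prod.ext a b

theorem prod_finite83 (L : ℕ) (H : ℕ → ℤ) : (Bel L H ×ˢ Abv L H).Finite :=
  (bel_finite L H).prod (abv_finite L H)

theorem PF_le83 {L : ℕ} {h : ℤ} {H : ℕ → ℤ} (hH : IsPath L H) (hh : 1 ≤ h)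
    (hm : ∀ t, t ≤ L → H t ≤ h) : PF L H ≤ PF L (cutH h H) := by
  rw [PF_prod83, PF_prod83]
  exact Set.ncard_le_ncard_of_injOn (fun p : (ℕ → ℤ) × (ℕ → ℤ) =>
    (sP L h p.1 p.2, sQ L h p.1 p.2)) (sPQ_mapsTo83 hH hh hm) (sPQ_injOn83 hm)
    (prod_finite83 L (cutH h H))

theorem PF_lt83 {L : ℕ} {h : ℤ} {H : ℕ → ℤ} (hH : IsPath L H) (hh : 1 ≤ h)
    (hm : ∀ t, t ≤ L → H t ≤ h) (h0 : ∃ P' ∈ Bel L (cutH h H), ∃ Q' ∈ Abv L (cutH h H),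
      ∀ P ∈ Bel L H, ∀ Q ∈ Abv L H, ¬ (sP L h P Q = P' ∧ sQ L h P Q = Q')) :
    PF L H < PF L (cutH h H) := by
  obtain ⟨P', hP', Q', hQ', h1⟩ := h0
  rw [PF_prod83, PF_prod83, ← Set.InjOn.ncard_image (sPQ_injOn83 hm)]
  refine Set.ncard_lt_ncard ?_ (prod_finite83 L (cutH h H))
  rw [Set.ssubset_iff_subset_ne]
  refine ⟨?_, ?_⟩
  · rintro _ ⟨p, hp, rfl⟩
    exact sPQ_mapsTo83 hH hh hm p hp
  · intro he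
    have hmem : (P', Q') ∈ (fun p : (ℕ → ℤ) × (ℕ → ℤ) =>
        (sP L h p.1 p.2, sQ L h p.1 p.2)) '' (Bel L H ×ˢ Abv L H) := by
      rw [he]
      exact ⟨hP', hQ'⟩
    obtain ⟨⟨P, Q⟩, ⟨hP, hQ⟩, e⟩ := hmem
    have e' := Prod.mk.inj e
    exact h1 P hP Q hQ ⟨e'.1, e'.2⟩

end Pool.Agent.DK73
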