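import Pool.Agent.DK73.Defs

/-!
# DK73/SwapS26: `path_par`, `sw_zero`, `sw_step`, `sw_step'`
-/

set_option autoImplicit false

namespace Pool.Agent.DK73

theorem path_par26 {L : ℕ} {P Q : ℕ → ℤ} (hP : IsPath L P) (hQ : IsPath L Q) (t : ℕ)
    (ht : t ≤ L) : (P t + Q t) % 2 = 0 := by
  induction t with
  | zero => rw [hP.zero, hQ.zero]; norm_num
  | succ t ih =>
    have h0 := ih (by omega)
    have h1 := hP.step t (by omega)
    have h2 := hQ.step t (by omega)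
    omega

theorem sw_zero26 {L : ℕ} {h : ℤ} {P Q : ℕ → ℤ} (hP : IsPath L P) (hQ : IsPath L Q) (hh : 1 ≤ h) :
    ¬ ∃ t', t' ≤ L ∧ P t' = h ∧ ∀ u, min 0 t' ≤ u → u ≤ max 0 t' → 2 * h - 2 < P u + Q u := by
  rintro ⟨t', -, -, h3⟩
  have h4 := h3 0 (by omega) (by omega)
  rw [hP.zero, hQ.zero] at h4
  omega

theorem sw_step26 {L : ℕ} {h : ℤ} {P Q : ℕ → ℤ} (hP : IsPath L P) (hQ : IsPath L Q) {t : ℕ}
    (ht : t < L)
    (h1 : ∃ t', t' ≤ L ∧ P t' = h ∧ ∀ u, min t t' ≤ u → u ≤ max t t' → 2 * h - 2 < P u + Q u)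
    (h2 : ¬ ∃ t', t' ≤ L ∧ P t' = h ∧ ∀ u, min (t + 1) t' ≤ u → u ≤ max (t + 1) t' →
      2 * h - 2 < P u + Q u) : P (t + 1) + Q (t + 1) = 2 * h - 2 := by
  obtain ⟨t', k1, k2, k3⟩ := h1
  have h0 := path_par26 hP hQ t ht.le
  have h0' := path_par26 hP hQ (t + 1) ht
  have h3 := k3 t (by omega) (by omega)
  have h4 := hP.step t ht
  have h5 := hQ.step t ht
  by_contra hne
  have h6 : 2 * h - 2 < P (t + 1) + Q (t + 1) := by omega
  apply h2
  refine ⟨t', k1, k2, fun u hu1 hu2 => ?_⟩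
  rcases Nat.lt_or_ge t u with hlt | hge
  · rcases Nat.lt_or_ge (t + 1) u with hlt' | hge'
    · exact k3 u (by omega) (by omega)
    · have hu : u = t + 1 := by omega
      rw [hu]
      exact h6
  · exact k3 u (by omega) (by omega)

theorem sw_step26' {L : ℕ} {h : ℤ} {P Q : ℕ → ℤ} (hP : IsPath L P) (hQ : IsPath L Q) {t : ℕ}
    (ht : t < L)
    (h1 : ¬ ∃ t', t' ≤ L ∧ P t' = h ∧ ∀ u, min t t' ≤ u → u ≤ max t t' → 2 * h - 2 < P u + Q u)
    (h2 : ∃ t', t' ≤ L ∧ P t' = h ∧ ∀ u, min (t + 1) t' ≤ u → u ≤ max (t + 1) t' →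
      2 * h - 2 < P u + Q u) : P t + Q t = 2 * h - 2 := by
  obtain ⟨t', k1, k2, k3⟩ := h2
  have h0 := path_par26 hP hQ t ht.le
  have h0' := path_par26 hP hQ (t + 1) ht
  have h3 := k3 (t + 1) (by omega) (by omega)
  have h4 := hP.step t ht
  have h5 := hQ.step t ht
  by_contra hne
  have h6 : 2 * h - 2 < P t + Q t := by omega
  apply h1
  refine ⟨t', k1, k2, fun u hu1 hu2 => ?_⟩
  rcases Nat.lt_or_ge u t with hlt | hge
  · exact k3 u (by omega) (by omega)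
  · rcases Nat.lt_or_ge t u with hlt' | hge'
    · exact k3 u (by omega) (by omega)
    · have hu : u = t := by omega
      rw [hu]
      exact h6

end Pool.Agent.DK73
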