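import Pool.Agent.DK73.Defs
import Pool.Agent.DK73.SwapS26

/-!
# The exchange of two paths on the components which touch the maximal height

`Sw L h P Q t`: `t` lies in a component (interval) of `{u : P u + Q u > 2 h - 2}` on which `P` takes the value `h`.
`sP`, `sQ`: on these components `P` is replaced by `2 h - 2 - Q` and `Q` by `2 h - 2 - P`.

`sw_zero`: `P 0 + Q 0 = 0 ≤ 2 h - 2`.
`sw_step`: `P t + Q t` is even and changes by `-2, 0, 2`; if `Sw` holds at `t` and the sum at `t + 1` is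
`> 2 h - 2`, then `Sw` holds at `t + 1` with the same `t'`; so otherwise the sum at `t + 1` is exactly `2 h - 2`.
`sw_step'`: the same in the other direction.
`sP_path`, `sQ_path`: steps inside a component and outside are clear, at the border both formulas agree
(`sw_step`, `sw_step'`).
-/

set_option autoImplicit false

namespace Pool.Agent.DK73

def Sw (L : ℕ) (h : ℤ) (P Q : ℕ → ℤ) (t : ℕ) : Prop :=
  ∃ t', t' ≤ L ∧ P t' = h ∧ ∀ u, min t t' ≤ u → u ≤ max t t' → 2 * h - 2 < P u + Q u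

open Classical in
noncomputable def sP (L : ℕ) (h : ℤ) (P Q : ℕ → ℤ) (t : ℕ) : ℤ :=
  if Sw L h P Q (min t L) then 2 * h - 2 - Q t else P t

open Classical in
noncomputable def sQ (L : ℕ) (h : ℤ) (P Q : ℕ → ℤ) (t : ℕ) : ℤ :=
  if Sw L h P Q (min t L) then 2 * h - 2 - P t else Q t

theorem path_par {L : ℕ} {P Q : ℕ → ℤ} (hP : IsPath L P) (hQ : IsPath L Q) (t : ℕ) (ht : t ≤ L) :
    (P t + Q t) % 2 = 0 :=
  path_par26 hP hQ t ht

theorem sw_zero {L : ℕ} {h : ℤ} {P Q : ℕ → ℤ} (hP : IsPath L P) (hQ : IsPath L Q) (hh : 1 ≤ h) :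
    ¬ Sw L h P Q 0 :=
  sw_zero26 hP hQ hh

theorem sw_step {L : ℕ} {h : ℤ} {P Q : ℕ → ℤ} (hP : IsPath L P) (hQ : IsPath L Q) {t : ℕ}
    (ht : t < L) (h1 : Sw L h P Q t) (h2 : ¬ Sw L h P Q (t + 1)) : P (t + 1) + Q (t + 1) = 2 * h - 2 :=
  sw_step26 hP hQ ht h1 h2

theorem sw_step' {L : ℕ} {h : ℤ} {P Q : ℕ → ℤ} (hP : IsPath L P) (hQ : IsPath L Q) {t : ℕ}
    (ht : t < L) (h1 : ¬ Sw L h P Q t) (h2 : Sw L h P Q (t + 1)) : P t + Q t = 2 * h - 2 :=
  sw_step26' hP hQ ht h1 h2

theorem sP_path {L : ℕ} {h : ℤ} {P Q : ℕ → ℤ} (hP : IsPath L P) (hQ : IsPath L Q) (hh : 1 ≤ h) :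
    IsPath L (sP L h P Q) := by
  refine ⟨?_, ?_, ?_⟩
  · have h0 := sw_zero hP hQ hh
    unfold sP
    rw [Nat.zero_min, if_neg h0]
    exact hP.zero
  · intro t ht
    have m1 : min t L = t := min_eq_left ht.le
    have m2 : min (t + 1) L = t + 1 := min_eq_left ht
    have hs := hQ.step t ht
    have hs' := hP.step t ht
    unfold sP
    rw [m1, m2]
    by_cases h1 : Sw L h P Q t
    · by_cases h2 : Sw L h P Q (t + 1)
      · rw [if_pos h1, if_pos h2]
        omega
      · have h3 := sw_step hP hQ ht h1 h2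
        rw [if_pos h1, if_neg h2]
        omega
    · by_cases h2 : Sw L h P Q (t + 1)
      · have h3 := sw_step' hP hQ ht h1 h2
        rw [if_neg h1, if_pos h2]
        omega
      · rw [if_neg h1, if_neg h2]
        exact hs'
  · intro t ht
    have m1 : min t L = L := min_eq_right ht
    unfold sP
    rw [m1, min_self, hP.const t ht, hQ.const t ht]

theorem sQ_path {L : ℕ} {h : ℤ} {P Q : ℕ → ℤ} (hP : IsPath L P) (hQ : IsPath L Q) (hh : 1 ≤ h) :
    IsPath L (sQ L h P Q) := by
  refine ⟨?_, ?_, ?_⟩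
  · have h0 := sw_zero hP hQ hh
    unfold sQ
    rw [Nat.zero_min, if_neg h0]
    exact hQ.zero
  · intro t ht
    have m1 : min t L = t := min_eq_left ht.le
    have m2 : min (t + 1) L = t + 1 := min_eq_left ht
    have hs := hQ.step t ht
    have hs' := hP.step t ht
    unfold sQ
    rw [m1, m2]
    by_cases h1 : Sw L h P Q t
    · by_cases h2 : Sw L h P Q (t + 1)
      · rw [if_pos h1, if_pos h2]
        omega
      · have h3 := sw_step hP hQ ht h1 h2
        rw [if_pos h1, if_neg h2]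
        omega
    · by_cases h2 : Sw L h P Q (t + 1)
      · have h3 := sw_step' hP hQ ht h1 h2
        rw [if_neg h1, if_pos h2]
        omega
      · rw [if_neg h1, if_neg h2]
        exact hs
  · intro t ht
    have m1 : min t L = L := min_eq_right ht
    unfold sQ
    rw [m1, min_self, hP.const t ht, hQ.const t ht]

end Pool.Agent.DK73
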