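import Pool.Agent.DK73.SwapMem
import Pool.Agent.DK73.SwChar83
import Pool.Agent.DK73.SwInj83

/-!
# The exchange is injective

`sw_char` (`t ≤ L`): the exchanged times can be read off from the result. `→`: let `t'` be the witness (`P t' = h`, so
`H t' = h`); all `u` between `t` and `t'` are exchanged (same witness), so `sP u + sQ u = 4 h - 4 - (P u + Q u) < 2 h - 2`,
and `sQ t' = 2 h - 2 - h`. `←`: `t'` is exchanged, otherwise `sQ t' = Q t' ≥ H t' = h`. Go from `t'` to `t` step by step: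
if `u` is exchanged and the next `u'` (between `t` and `t'`) is not, then `sP u' + sQ u' = P u' + Q u' = 2 h - 2`
(`sw_step`, `sw_step'`), a contradiction.
`swap_inj`: by `sw_char` the exchanged times of both pairs agree; so the pairs agree at all `t ≤ L`, and beyond
`L` the paths are constant.
`PF_le`: `Set.ncard_prod`, `Set.ncard_le_ncard_of_injOn` for the map `(P, Q) ↦ (sP, sQ)`.
`PF_lt`: a pair outside the image (`Set.ncard_lt_ncard` for the image, `Set.ncard_image_of_injOn`).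
-/

set_option autoImplicit false

namespace Pool.Agent.DK73

theorem sw_char {L : ℕ} {h : ℤ} {H P Q : ℕ → ℤ} (hH : IsPath L H) (hh : 1 ≤ h)
    (hm : ∀ t, t ≤ L → H t ≤ h) (hP : P ∈ Bel L H) (hQ : Q ∈ Abv L H) {t : ℕ} (ht : t ≤ L) :
    Sw L h P Q t ↔ ∃ t', t' ≤ L ∧ H t' = h ∧ sQ L h P Q t' = h - 2 ∧
      ∀ u, min t t' ≤ u → u ≤ max t t' → sP L h P Q u + sQ L h P Q u < 2 * h - 2 := by
  exact sw_char83 hm hP hQ ht

theorem swap_inj {L : ℕ} {h : ℤ} {H P Q P' Q' : ℕ → ℤ} (hH : IsPath L H) (hh : 1 ≤ h)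
    (hm : ∀ t, t ≤ L → H t ≤ h) (hP : P ∈ Bel L H) (hQ : Q ∈ Abv L H) (hP' : P' ∈ Bel L H)
    (hQ' : Q' ∈ Abv L H) (h1 : sP L h P Q = sP L h P' Q') (h2 : sQ L h P Q = sQ L h P' Q') :
    P = P' ∧ Q = Q' := by
  exact swap_inj83 hm hP hQ hP' hQ' h1 h2

theorem PF_le {L : ℕ} {h : ℤ} {H : ℕ → ℤ} (hH : IsPath L H) (hh : 1 ≤ h)
    (hm : ∀ t, t ≤ L → H t ≤ h) : PF L H ≤ PF L (cutH h H) := by
  exact PF_le83 hH hh hm

theorem PF_lt {L : ℕ} {h : ℤ} {H : ℕ → ℤ} (hH : IsPath L H) (hh : 1 ≤ h)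
    (hm : ∀ t, t ≤ L → H t ≤ h) (h0 : ∃ P' ∈ Bel L (cutH h H), ∃ Q' ∈ Abv L (cutH h H),
      ∀ P ∈ Bel L H, ∀ Q ∈ Abv L H, ¬ (sP L h P Q = P' ∧ sQ L h P Q = Q')) :
    PF L H < PF L (cutH h H) := by
  exact PF_lt83 hH hh hm h0

end Pool.Agent.DK73
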