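import Pool.Agent.DK73.Swap

/-!
# The exchanged pair belongs to the cut path

`cut_path15`, `sP_mem15`, `sQ_mem15`: the three statements of SwapMem.
-/

set_option autoImplicit false

namespace Pool.Agent.DK73

theorem cut_path15 {L : ℕ} {h : ℤ} {H : ℕ → ℤ} (hH : IsPath L H) (hh : 1 ≤ h)
    (hm : ∀ t, t ≤ L → H t ≤ h) : IsPath L (cutH h H) := by
  refine ⟨?_, ?_, ?_⟩
  · have h0 := hH.zero
    unfold cutH
    rw [if_neg (by omega)]
    exact h0
  · intro t ht
    have h1 := hH.step t ht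
    have h2 := hm t ht.le
    have h3 := hm (t + 1) ht
    unfold cutH
    split_ifs with e1 e2 <;> omega
  · intro t ht
    unfold cutH
    rw [hH.const t ht]

/-- a time at which `P` has the value `h` is exchanged -/
theorem sw_self15 {L : ℕ} {h : ℤ} {P Q : ℕ → ℤ} {t : ℕ} (ht : t ≤ L) (hP : P t = h)
    (hQ : h ≤ Q t) : Sw L h P Q t := by
  refine ⟨t, ht, hP, fun u h1 h2 => ?_⟩
  rw [min_self] at h1
  rw [max_self] at h2
  have : u = t := le_antisymm h2 h1
  subst this
  omega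

/-- at an exchanged time the sum is large -/
theorem sw_gt15 {L : ℕ} {h : ℤ} {P Q : ℕ → ℤ} {t : ℕ} (hs : Sw L h P Q t) :
    2 * h - 2 < P t + Q t := by
  obtain ⟨t', _, _, h1⟩ := hs
  exact h1 t (min_le_left _ _) (le_max_left _ _)

theorem sP_mem15 {L : ℕ} {h : ℤ} {H P Q : ℕ → ℤ} (hH : IsPath L H) (hh : 1 ≤ h)
    (hm : ∀ t, t ≤ L → H t ≤ h) (hP : P ∈ Bel L H) (hQ : Q ∈ Abv L H) :
    sP L h P Q ∈ Bel L (cutH h H) := by
  obtain ⟨hP1, hP2, hP3⟩ := hP
  obtain ⟨hQ1, hQ2, hQ3⟩ := hQ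
  refine ⟨sP_path hP1 hQ1 hh, ?_, ?_⟩
  · have h1 := hm L le_rfl
    unfold sP cutH
    rw [min_self]
    by_cases hs : Sw L h P Q L
    · have h2 := sw_gt15 hs
      rw [if_pos hs, if_pos (by omega)]
      omega
    · rw [if_neg hs, if_neg]
      · exact hP2
      · intro e
        exact hs (sw_self15 le_rfl (by omega) (by omega))
  · intro t ht
    have h1 := hm t ht
    have h2 := hP3 t ht
    have h3 := hQ3 t ht
    have h4 := path_par hH hP1 t ht
    unfold sP cutH
    rw [min_eq_left ht]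
    by_cases hs : Sw L h P Q t
    · have h5 := sw_gt15 hs
      rw [if_pos hs]
      split_ifs <;> omega
    · rw [if_neg hs]
      split_ifs with e
      · have h6 : P t ≠ h := fun e' => hs (sw_self15 ht e' (by omega))
        omega
      · exact h2

theorem sQ_mem15 {L : ℕ} {h : ℤ} {H P Q : ℕ → ℤ} (hh : 1 ≤ h)
    (hm : ∀ t, t ≤ L → H t ≤ h) (hP : P ∈ Bel L H) (hQ : Q ∈ Abv L H) :
    sQ L h P Q ∈ Abv L (cutH h H) := by
  obtain ⟨hP1, hP2, hP3⟩ := hP
  obtain ⟨hQ1, hQ2, hQ3⟩ := hQ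
  refine ⟨sQ_path hP1 hQ1 hh, ?_, ?_⟩
  · have h1 := hm L le_rfl
    unfold sQ cutH
    rw [min_self]
    by_cases hs : Sw L h P Q L
    · have h2 := sw_gt15 hs
      rw [if_pos hs, if_pos (by omega)]
      omega
    · rw [if_neg hs, if_neg]
      · exact hQ2
      · intro e
        exact hs (sw_self15 le_rfl (by omega) (by omega))
  · intro t ht
    have h1 := hm t ht
    have h2 := hP3 t ht
    have h3 := hQ3 t ht
    unfold sQ cutH
    rw [min_eq_left ht]
    by_cases hs : Sw L h P Q t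
    · rw [if_pos hs]
      split_ifs <;> omega
    · rw [if_neg hs]
      split_ifs <;> omega

end Pool.Agent.DK73
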