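import Pool.Agent.DK73.Swap
import Pool.Agent.DK73.SwapMemS15

/-!
# The exchanged pair belongs to the cut path

Let `H t ≤ h` for `t ≤ L`, `P ≤ H ≤ Q`, same end points.
`cut_path`: `cutH h H` is a path: `H` takes the value `h` only with neighbours `h - 1`; `H 0 = 0 < h`.
`sP_mem`: at a time with `P t = h` one has `H t = h ≤ Q t`, so `t` is exchanged (`t' = t`), and `2 h - 2 - Q t ≤ h - 2`.
In an exchanged component `2 h - 2 - Q t < P t ≤ H t`, and if `H t = h` then `Q t ≥ h`. Outside `P t ≤ H t`, and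
`P t < h`; if `H t = h` then `P t ≤ h - 2` by parity. End point: `t = L` is treated in the same way; if `H L < h` and
`L` is exchanged, then `P L + Q L = 2 H L ≤ 2 h - 2`, a contradiction; if `H L = h`, then `L` is exchanged and both
paths end at `h - 2`.
`sQ_mem`: in an exchanged component `2 h - 2 - P t ≥ h - 2`, and `≥ h - 1 ≥ H t` if `H t < h`.
-/

set_option autoImplicit false

namespace Pool.Agent.DK73

theorem cut_path {L : ℕ} {h : ℤ} {H : ℕ → ℤ} (hH : IsPath L H) (hh : 1 ≤ h)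
    (hm : ∀ t, t ≤ L → H t ≤ h) : IsPath L (cutH h H) :=
  cut_path15 hH hh hm

theorem sP_mem {L : ℕ} {h : ℤ} {H P Q : ℕ → ℤ} (hH : IsPath L H) (hh : 1 ≤ h)
    (hm : ∀ t, t ≤ L → H t ≤ h) (hP : P ∈ Bel L H) (hQ : Q ∈ Abv L H) :
    sP L h P Q ∈ Bel L (cutH h H) :=
  sP_mem15 hH hh hm hP hQ

theorem sQ_mem {L : ℕ} {h : ℤ} {H P Q : ℕ → ℤ} (hH : IsPath L H) (hh : 1 ≤ h)
    (hm : ∀ t, t ≤ L → H t ≤ h) (hP : P ∈ Bel L H) (hQ : Q ∈ Abv L H) :
    sQ L h P Q ∈ Abv L (cutH h H) :=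
  sQ_mem15 hh hm hP hQ

end Pool.Agent.DK73
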